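import Pool.Agent.Work.MP_89ab3c_nt.Main

section
/-!
# Brun's pure sieve and the correlation formula on an arbitrary interval
-/

set_option autoImplicit false

namespace Pool.Agent.Work.MP_89ab3c_nt

open Finset Pool.Agent.Lib.ANT

noncomputable section

lemma countX {S P1 : Finset ℕ} (h0 : ∀ p ∈ S, p.Prime) (h1 : ∀ p ∈ P1, p.Prime)
    (hd : Disjoint S P1) {ω : ℕ → Finset ℕ} (hω : ∀ p ∈ S, ω p ⊆ range p) {b : ℕ → ℕ}
    (hb : ∀ p ∈ P1, b p < p) (X₀ Z : ℕ) :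
    |(((Ioc X₀ (X₀ + Z)).filter fun z => (∀ p ∈ S, z % p ∈ ω p) ∧ ∀ p ∈ P1, z % p = b p).card : ℝ)
      - Z * (∏ p ∈ P1, (p : ℝ)⁻¹) * ∏ p ∈ S, ((ω p).card : ℝ) / p|
      ≤ ∏ p ∈ S, ((ω p).card : ℝ) := by
  have hT : ∀ p ∈ S ∪ P1, p.Prime := fun p hp => (mem_union.1 hp).elim (h0 p) (h1 p)
  set Ω : ℕ → Finset ℕ := fun p => if p ∈ P1 then {b p} else ω p with hΩ
  have e0 : ∀ p ∈ S, Ω p = ω p := fun p hp => if_neg (disjoint_left.1 hd hp)
  have e1 : ∀ p ∈ P1, Ω p = {b p} := fun p hp => if_pos hp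
  have hc := Lib.ANT.card_range_prod_primes (S ∪ P1) hT Ω fun p hp => by
    rcases mem_union.1 hp with h | h
    · rw [e0 p h]; exact hω p h
    · rw [e1 p h]; exact singleton_subset_iff.2 (mem_range.2 (hb p h))
  have hm := Lib.ANT.abs_card_mod_mem_sub_le X₀ Z (∏ p ∈ S ∪ P1, p)
    (prod_pos fun p hp => (hT p hp).pos) fun n => ∀ p ∈ S ∪ P1, n % p ∈ Ω p
  have hp : ∏ p ∈ S ∪ P1, (Ω p).card = ∏ p ∈ S, (ω p).card := by
    rw [prod_union hd, prod_eq_one (s := P1) fun p hp => by rw [e1 p hp, card_singleton], mul_one]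
    exact prod_congr rfl fun p hp => by rw [e0 p hp]
  rw [hc, hp] at hm
  have e2 : ((Ioc X₀ (X₀ + Z)).filter fun z => (∀ p ∈ S, z % p ∈ ω p) ∧ ∀ p ∈ P1, z % p = b p)
      = (Ioc X₀ (X₀ + Z)).filter fun n => ∀ p ∈ S ∪ P1, n % (∏ p ∈ S ∪ P1, p) % p ∈ Ω p := by
    refine filter_congr fun z _ => ?_
    have e3 : ∀ p ∈ S ∪ P1, z % (∏ p ∈ S ∪ P1, p) % p = z % p := fun p hp =>
      Nat.mod_mod_of_dvd z (dvd_prod_of_mem (fun p => p) hp)
    rw [forall_mem_union]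
    exact and_congr (forall₂_congr fun p hp => by rw [e0 p hp, e3 p (mem_union_left _ hp)])
      (forall₂_congr fun p hp => by rw [e1 p hp, mem_singleton, e3 p (mem_union_right _ hp)])
  have e4 : (Z : ℝ) * (∏ p ∈ P1, (p : ℝ)⁻¹) * ∏ p ∈ S, ((ω p).card : ℝ) / p
      = ((∏ p ∈ S, (ω p).card : ℕ) : ℝ) * (Z / ((∏ p ∈ S ∪ P1, p : ℕ) : ℝ)) := by
    rw [prod_union hd, prod_div_distrib, prod_inv_distrib]
    push_cast
    ring
  rw [e2, e4]
  exact hm.trans_eq (Nat.cast_prod _ _)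

open BrunAux in
theorem brunX (P0 P1 : Finset ℕ) (h0 : ∀ p ∈ P0, p.Prime) (h1 : ∀ p ∈ P1, p.Prime)
    (hd : Disjoint P0 P1) (ω : ℕ → Finset ℕ) (hω : ∀ p ∈ P0, ω p ⊆ range p) (b : ℕ → ℕ)
    (hb : ∀ p ∈ P1, b p < p) (m X₀ Z : ℕ) {κ y σ : ℝ} (hκ0 : 0 ≤ κ)
    (hκ : ∀ p ∈ P0, ((ω p).card : ℝ) ≤ κ) (hy1 : 1 ≤ y) (hy : ∀ p ∈ P0, (p : ℝ) ≤ y)
    (hσ : ∑ p ∈ P0, (p : ℝ)⁻¹ ≤ σ) :
    |(((Ioc X₀ (X₀ + Z)).filter fun z => (∀ p ∈ P0, z % p ∉ ω p) ∧ ∀ p ∈ P1, z % p = b p).card : ℝ)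
        - Z * (∏ p ∈ P0, (1 - ((ω p).card : ℝ) / p)) * ∏ p ∈ P1, (p : ℝ)⁻¹|
      ≤ Z * (∏ p ∈ P1, (p : ℝ)⁻¹) * (2 * Real.exp (-(m : ℝ) + 3 * κ * σ))
        + y ^ (m + 1) * Real.exp (κ * σ) := by
  set Q := ∏ p ∈ P1, (p : ℝ)⁻¹ with hQ
  set g : ℕ → ℝ := fun p => ((ω p).card : ℝ) / p with hg
  set N : Finset ℕ → ℝ := fun S =>
    (((Ioc X₀ (X₀ + Z)).filter fun z => (∀ p ∈ S, z % p ∈ ω p) ∧ ∀ p ∈ P1, z % p = b p).card : ℝ) with hN
  have hZQ : 0 ≤ (Z : ℝ) * Q := by positivity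
  have hg0 : ∀ p, 0 ≤ g p := fun p => by positivity
  have hgS : ∀ S : Finset ℕ, 0 ≤ ∏ p ∈ S, g p := fun S => prod_nonneg fun p _ => hg0 p
  have hsum : ∑ p ∈ P0, g p ≤ κ * σ := by
    refine (sum_le_sum fun p hp => ?_).trans
      ((mul_sum P0 (fun p => (p : ℝ)⁻¹) κ).ge.trans (mul_le_mul_of_nonneg_left hσ hκ0))
    exact mul_le_mul_of_nonneg_right (hκ p hp) (by positivity)
  have hall : ∑ S ∈ P0.powerset, ∏ p ∈ S, g p ≤ Real.exp (κ * σ) := by
    rw [← prod_one_add]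
    exact (Real.prod_one_add_le_exp_sum _ hg0).trans (Real.exp_le_exp.2 hsum)
  have htail : ∑ S ∈ P0.powerset, Real.exp (-(m : ℝ)) * ∏ p ∈ S, (Real.exp 1 * g p)
      ≤ Real.exp (-(m : ℝ) + 3 * κ * σ) := by
    rw [← mul_sum, ← prod_one_add, Real.exp_add]
    refine mul_le_mul_of_nonneg_left ((Real.prod_one_add_le_exp_sum _ fun p =>
      mul_nonneg (Real.exp_pos 1).le (hg0 p)).trans (Real.exp_le_exp.2 ?_)) (Real.exp_pos _).le
    rw [← mul_sum, mul_assoc]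
    exact mul_le_mul (Real.exp_one_lt_d9.le.trans (by norm_num)) hsum
      (sum_nonneg fun p _ => hg0 p) (by norm_num)
  have trunc : ∀ j, m ≤ j → j ≤ m + 1 →
      |∑ S ∈ P0.powerset, sg j S.card * N S - Z * (∏ p ∈ P0, (1 - g p)) * Q|
        ≤ Z * Q * (2 * Real.exp (-(m : ℝ) + 3 * κ * σ)) + y ^ (m + 1) * Real.exp (κ * σ) := by
    intro j hj hj'
    have e : (Z : ℝ) * (∏ p ∈ P0, (1 - g p)) * Q
        = ∑ S ∈ P0.powerset, (-1) ^ S.card * (Z * Q * ∏ p ∈ S, g p) := by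
      simp only [sub_eq_add_neg]
      rw [prod_one_add, mul_right_comm, mul_sum]
      refine sum_congr rfl fun S _ => ?_
      rw [prod_neg]
      ring
    rw [e, ← sum_sub_distrib]
    refine (abs_sum_le_sum_abs _ _).trans ((sum_le_sum (g := fun S =>
      Z * Q * (Real.exp (-(m : ℝ)) * ∏ p ∈ S, (Real.exp 1 * g p)) + y ^ (m + 1) * ∏ p ∈ S, g p)
      fun S hS => ?_).trans ?_)
    · have hS' := mem_powerset.1 hS
      have t0 : 0 ≤ Real.exp (-(m : ℝ)) * ∏ p ∈ S, (Real.exp 1 * g p) :=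
        mul_nonneg (Real.exp_pos _).le
          (prod_nonneg fun p _ => mul_nonneg (Real.exp_pos 1).le (hg0 p))
      unfold sg
      split_ifs with h
      · rw [← mul_sub, abs_mul, abs_pow, abs_neg, abs_one, one_pow, one_mul]
        refine (countX (fun p hp => h0 p (hS' hp)) h1 (hd.mono_left hS')
          (fun p hp => hω p (hS' hp)) hb X₀ Z).trans (le_add_of_nonneg_of_le (mul_nonneg hZQ t0) ?_)
        refine le_trans ?_ (mul_le_mul_of_nonneg_right (pow_le_pow_right₀ hy1 (h.trans hj')) (hgS S))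
        rw [← prod_const, ← prod_mul_distrib]
        refine prod_le_prod (fun p _ => Nat.cast_nonneg _) fun p hp => ?_
        have hp0 : (0 : ℝ) < p := by exact_mod_cast (h0 p (hS' hp)).pos
        calc ((ω p).card : ℝ) = p * g p := by rw [hg]; field_simp
          _ ≤ y * g p := mul_le_mul_of_nonneg_right (hy p (hS' hp)) (hg0 p)
      · rw [zero_mul, zero_sub, abs_neg, abs_mul, abs_pow, abs_neg, abs_one, one_pow, one_mul,
          abs_of_nonneg (mul_nonneg hZQ (hgS S))]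
        refine le_add_of_le_of_nonneg (mul_le_mul_of_nonneg_left ?_ hZQ)
          (mul_nonneg (by positivity) (hgS S))
        rw [prod_mul_distrib, prod_const, ← Real.exp_nat_mul, ← mul_assoc, ← Real.exp_add]
        refine le_mul_of_one_le_left (hgS S) (Real.one_le_exp ?_)
        have : (m : ℝ) ≤ S.card := by exact_mod_cast (by omega : m ≤ S.card)
        linarith only [this]
    · rw [sum_add_distrib, ← mul_sum _ _ ((Z : ℝ) * Q), ← mul_sum _ _ (y ^ (m + 1))]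
      refine add_le_add (mul_le_mul_of_nonneg_left (htail.trans ?_) hZQ)
        (mul_le_mul_of_nonneg_left hall (by positivity))
      linarith only [Real.exp_pos (-(m : ℝ) + 3 * κ * σ)]
  have side : ∀ j : ℕ, (-1 : ℝ) ^ j *
      (((Ioc X₀ (X₀ + Z)).filter fun z => (∀ p ∈ P0, z % p ∉ ω p) ∧ ∀ p ∈ P1, z % p = b p).card : ℝ)
      ≤ (-1) ^ j * ∑ S ∈ P0.powerset, sg j S.card * N S := by
    intro j
    simp only [hN, card_filter, Nat.cast_sum, mul_sum _ _ (sg j _)]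
    rw [sum_comm, mul_sum, mul_sum]
    refine sum_le_sum fun z _ => ?_
    by_cases hz : ∀ p ∈ P1, z % p = b p
    · refine (Eq.trans_le ?_ (bonf (P0.filter fun p => z % p ∈ ω p) j)).trans_eq ?_ <;> congr 1
      · simp only [filter_eq_empty_iff, and_iff_left hz]
        split_ifs <;> simp
      · refine sum_subset_zero_on_sdiff (powerset_mono.2 (filter_subset _ _)) (fun S hS => ?_)
          fun S hS => ?_
        · rw [mem_sdiff, mem_powerset, mem_powerset] at hS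
          rw [if_neg fun h => hS.2 fun p hp => mem_filter.2 ⟨hS.1 hp, h.1 p hp⟩]
          simp
        · rw [if_pos ⟨fun p hp => (mem_filter.1 (mem_powerset.1 hS hp)).2, hz⟩]
          simp
    · simp [hz]
  have t1 := abs_le.1 (trunc m le_rfl m.le_succ)
  have t2 := abs_le.1 (trunc (m + 1) m.le_succ le_rfl)
  have s1 := side m
  have s2 := side (m + 1)
  rw [pow_succ] at s2
  rw [abs_le]
  rcases neg_one_pow_eq_or ℝ m with h | h <;> rw [h] at s1 s2 <;> constructor <;> linarith only [t2, s2, t1, s1]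

variable {X : Type} [DecidableEq X]

lemma cor_eqX (y R W X₀ Z : ℕ) (v : X → ℕ) (l : List X) :
    ∑ z ∈ Ioc X₀ (X₀ + Z), piW y W Z z * (l.map fun x => nuW y R W z (W * v x)).prod
      = (Z * VP ((P0 y).filter (· ∣ W)))⁻¹ *
        (Gp (P2 y R W) R * VP ((P0 y).filter (¬ · ∣ W)))⁻¹ ^ l.length *
        ∑ z ∈ (Ioc X₀ (X₀ + Z)).filter fun z => ∀ p ∈ P0 y, z % p ∉ om W v l.toFinset p,
          ∏ i : Fin l.length, Lam (P2 y R W) R (DD _ z (W * v l[i.1])) ^ 2 := by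
  rw [sum_filter, mul_sum]
  refine sum_congr rfl fun z _ => ?_
  rw [← Fin.prod_univ_fun_getElem]
  split_ifs with h
  · rw [piW, if_pos, mul_assoc]
    · have : ∀ i : Fin l.length, nuW y R W z (W * v l[i.1]) = _ := fun i => if_pos fun p hp h1 => by
        rw [mem_filter] at hp
        refine h p hp.1 ?_
        rw [om, if_neg hp.2, h1]
        exact mem_image.2 ⟨_, List.mem_toFinset.2 (List.getElem_mem _), rfl⟩
      rw [prod_congr rfl fun i _ => this i, prod_mul_distrib, prod_const, card_univ,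
        Fintype.card_fin, mul_comm (∏ _, _)]
    · intro p hp h1
      rw [mem_filter] at hp
      exact h p hp.1 (by simp [om, hp.2, h1])
  · rw [mul_zero]
    push Not at h
    obtain ⟨p, hp, h⟩ := h
    unfold om at h
    split_ifs at h with hW
    · rw [piW, if_neg, zero_mul]
      exact fun h1 => h1 p (mem_filter.2 ⟨hp, hW⟩) (by simpa using h)
    · obtain ⟨x, hx, h⟩ := mem_image.1 h
      obtain ⟨i, hi, rfl⟩ := List.getElem_of_mem (List.mem_toFinset.1 hx)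
      rw [prod_eq_zero (mem_univ (⟨i, hi⟩ : Fin l.length)), mul_zero]
      exact if_neg fun h1 => h1 p (mem_filter.2 ⟨hp, hW⟩) h.symm

omit [DecidableEq X] in
lemma dist_omX {y R W X₀ Z m J : ℕ} (v : X → ℕ) (S : Finset X) (hJ : 1 ≤ J) (hS : S.card ≤ J)
    (hy : 1 ≤ y) {σ : ℝ} (hσ : ∑ p ∈ P0 y, (p : ℝ)⁻¹ ≤ σ) :
    Dist (P2 y R W) ((Ioc X₀ (X₀ + Z)).filter fun z => ∀ p ∈ P0 y, z % p ∉ om W v S p)
      (Z * ∏ p ∈ P0 y, (1 - ((om W v S p).card : ℝ) / p))
      (Z * (2 * Real.exp (-(m : ℝ) + 3 * J * σ))) ((y : ℝ) ^ (m + 1) * Real.exp (J * σ)) := by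
  intro P1 hP1 b hb
  have := brunX (P0 y) P1 (fun p => P0_prime) (fun p hp => (mem_filter.1 (hP1 hp)).2.1)
    (disjoint_left.2 fun p h1 h2 => by
      have := (mem_Ioc.1 (mem_filter.1 h1).1).2
      have := (mem_Ioc.1 (mem_filter.1 (hP1 h2)).1).1
      omega) (om W v S) (fun p hp x hx => by
      have := (P0_prime hp).pos
      unfold om at hx
      split_ifs at hx
      · rw [mem_singleton.1 hx]; simpa
      · obtain ⟨a, -, rfl⟩ := mem_image.1 hx
        exact mem_range.2 (Nat.mod_lt _ this)) b hb m X₀ Z (κ := J) (y := y) (by positivity)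
    (fun p _ => by
      unfold om
      split_ifs
      · simpa using hJ
      · exact_mod_cast card_image_le.trans hS) (by exact_mod_cast hy)
    (fun p hp => by exact_mod_cast (mem_Ioc.1 (mem_filter.1 hp).1).2) hσ
  rw [filter_filter]
  exact this.trans_eq (by ring)

end

end Pool.Agent.Work.MP_89ab3c_nt
end

section
/-!
# Selberg correlations when some large primes divide differences of the shifts
-/

set_option autoImplicit false

namespace Pool.Agent.Work.MP_89ab3c_nt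

open Finset Pool.Agent.Lib.ANT

noncomputable section

variable {P : Finset ℕ} {R : ℕ}

lemma wide_one {S : Finset ℕ} {Mv E1 E2 : ℝ} (h : Dist P S Mv E1 E2) (hM : 0 ≤ Mv) (hE1 : 0 ≤ E1)
    {y p : ℕ} (hp : p ∈ P) (hy0 : 0 < y) (hy : y < p) (b : ℕ) :
    ∑ z ∈ S, (if z % p = b % p then (1 : ℝ) else 0) ≤ (Mv + E1) * (y : ℝ)⁻¹ + E2 := by
  have h1 := (abs_le.1 (h {p} (singleton_subset_iff.2 hp) (fun _ => b % p) fun p' hp' => by
    rw [mem_singleton.1 hp']; exact Nat.mod_lt _ (by omega))).2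
  simp only [mem_singleton, forall_eq, prod_singleton] at h1
  have h2 : (p : ℝ)⁻¹ ≤ (y : ℝ)⁻¹ := inv_anti₀ (by exact_mod_cast hy0) (by exact_mod_cast hy.le)
  rw [sum_boole]
  have h3 := mul_le_mul_of_nonneg_left h2 (add_nonneg hM hE1)
  linarith only [h1, h3]

lemma wide_sq {ι : Type} [Fintype ι] [DecidableEq ι] (hP : ∀ p ∈ P, 2 ≤ p) {S : Finset ℕ}
    {Mv E1 E2 : ℝ} (h : Dist P S Mv E1 E2) (hM : 0 ≤ Mv) (hE1 : 0 ≤ E1) (hE2 : 0 ≤ E2)
    (c : ι → ℕ) : ∑ z ∈ S, (∏ i, Lam P R (DD P z (c i)) ^ 2) ^ 2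
      ≤ UU P ^ (4 * Fintype.card ι) *
      ((Mv + E1) * UU P ^ 16 ^ Fintype.card ι + E2 * (R * UU P) ^ (4 * Fintype.card ι)) := by
  have key := corr2 (R := R) hP h hM hE1 hE2 fun a : Fin 2 × ι => c a.2
  rw [Fintype.card_prod, Fintype.card_fin, pow_mul 4 2, show 4 ^ 2 = 16 by norm_num,
    ← mul_assoc 2 2, show 2 * 2 = 4 by norm_num] at key
  refine le_trans (le_of_eq (sum_congr rfl fun z _ => ?_)) key
  rw [Fintype.prod_prod_type]
  simp only [prod_const, card_univ, Fintype.card_fin]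

theorem corr3 {ι : Type} [Fintype ι] [DecidableEq ι] (hP : ∀ p ∈ P, p.Prime) {y : ℕ} (hy0 : 0 < y)
    (hy : ∀ p ∈ P, y < p) (hn : Fintype.card ι ≤ y) {S : Finset ℕ}
    {Mv E1 E2 ε η : ℝ} (h : Dist P S Mv E1 E2) (hM : 0 ≤ Mv) (hE1 : 0 ≤ E1) (hE2 : 0 ≤ E2)
    (c : ι → ℕ) {L : ℕ}
    (hL : (P.filter fun p => ∃ i j, i ≠ j ∧ c i % p = c j % p).card ≤ L) (hη : 0 < η)
    (hε : 4 ^ Fintype.card ι * (6 * Fintype.card ι + 3) * ∑ p : P, (((p : ℕ) : ℝ)⁻¹) ^ 2 ≤ ε)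
    (hε1 : ε ≤ 1) :
    |∑ z ∈ S, ∏ i, Lam P R (DD P z (c i)) ^ 2 - Mv * Gp P R ^ Fintype.card ι|
      ≤ UU P ^ (7 * Fintype.card ι) * (E1 + (R : ℝ) ^ (2 * Fintype.card ι) * E2)
        + |Mv| * UU P ^ Fintype.card ι * (2 * ε)
        + (2 * η * (UU P ^ (4 * Fintype.card ι) * ((Mv + E1) * UU P ^ 16 ^ Fintype.card ι
            + E2 * (R * UU P) ^ (4 * Fintype.card ι)))
          + η⁻¹ * (L * (Fintype.card ι * (2 * ((Mv + E1) * (y : ℝ)⁻¹ + E2))))) := by
  classical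
  have hP2 : ∀ p ∈ P, 2 ≤ p := fun p hp => (hP p hp).two_le
  set Bd := P.filter fun p => ∃ i j, i ≠ j ∧ c i % p = c j % p with hBd
  have hcr : ∀ i : ι, ∃ k : ℕ, ∀ p ∈ P,
      k % p = (if p ∈ Bd then (Fintype.equivFin ι i : ℕ) else c i) % p := fun i => by
    obtain ⟨k, hk⟩ := Nat.chineseRemainderOfFinset
      (fun p => if p ∈ Bd then (Fintype.equivFin ι i : ℕ) else c i) id P
      (fun p hp => (hP p hp).ne_zero)
      (fun p hp p' hp' hne => (Nat.coprime_primes (hP p hp) (hP p' hp')).2 hne)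
    exact ⟨k, hk⟩
  choose c' hc' using hcr
  have k1 := corr1 (R := R) hP2 h hE1 hE2 c' (fun p hp i j hij => by
    rw [hc' i p hp, hc' j p hp] at hij
    by_cases hb : p ∈ Bd
    · rw [if_pos hb, if_pos hb] at hij
      have a1 := (Fintype.equivFin ι i).2
      have a2 := (Fintype.equivFin ι j).2
      have a3 := hy p hp
      rw [Nat.mod_eq_of_lt (by omega), Nat.mod_eq_of_lt (by omega)] at hij
      exact (Fintype.equivFin ι).injective (Fin.ext hij)
    · rw [if_neg hb, if_neg hb] at hij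
      by_contra hne
      exact hb (mem_filter.2 ⟨hp, i, j, hne, hij⟩)) hε hε1
  have k2 := wide_sq (R := R) hP2 h hM hE1 hE2 c
  have k3 := wide_sq (R := R) hP2 h hM hE1 hE2 c'
  set N : ℕ → ℝ := fun z => ∑ p ∈ Bd, ∑ i, ((if z % p = c i % p then (1 : ℝ) else 0)
    + if z % p = c' i % p then (1 : ℝ) else 0) with hN
  have n0 : ∀ z p i, (0 : ℝ) ≤ (if z % p = c i % p then (1 : ℝ) else 0)
      + if z % p = c' i % p then (1 : ℝ) else 0 := fun z p i => by
    split_ifs <;> norm_num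
  have k4 : ∑ z ∈ S, N z ≤ L * (Fintype.card ι * (2 * ((Mv + E1) * (y : ℝ)⁻¹ + E2))) := by
    simp only [hN]
    rw [sum_comm]
    refine (sum_le_card_nsmul _ _ (Fintype.card ι * (2 * ((Mv + E1) * (y : ℝ)⁻¹ + E2)))
      fun p hp => ?_).trans ?_
    · rw [sum_comm]
      refine (sum_le_card_nsmul _ _ (2 * ((Mv + E1) * (y : ℝ)⁻¹ + E2)) fun i _ => ?_).trans_eq
        (by rw [nsmul_eq_mul, card_univ])
      have hp' := (mem_filter.1 hp).1
      rw [sum_add_distrib]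
      linarith only [wide_one h hM hE1 hp' hy0 (hy p hp') (c i),
        wide_one h hM hE1 hp' hy0 (hy p hp') (c' i)]
    · rw [nsmul_eq_mul]
      exact mul_le_mul_of_nonneg_right (by exact_mod_cast hL) (by positivity)
  have k5 : ∀ z, |∏ i, Lam P R (DD P z (c i)) ^ 2 - ∏ i, Lam P R (DD P z (c' i)) ^ 2|
      ≤ η * (∏ i, Lam P R (DD P z (c i)) ^ 2) ^ 2 + η * (∏ i, Lam P R (DD P z (c' i)) ^ 2) ^ 2
        + η⁻¹ * N z := fun z => by
    have N0 : 0 ≤ N z := sum_nonneg fun p _ => sum_nonneg fun i _ => n0 z p i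
    by_cases hz : ∃ p ∈ Bd, ∃ i, z % p = c i % p ∨ z % p = c' i % p
    · obtain ⟨p, hp, i, hi⟩ := hz
      have N1 : 1 ≤ N z := by
        refine le_trans ?_ (single_le_sum (f := fun p => ∑ i, ((if z % p = c i % p then (1 : ℝ) else 0)
          + if z % p = c' i % p then (1 : ℝ) else 0)) (fun p _ => sum_nonneg fun i _ => n0 z p i) hp)
        refine le_trans ?_ (single_le_sum (f := fun i => ((if z % p = c i % p then (1 : ℝ) else 0)
          + if z % p = c' i % p then (1 : ℝ) else 0)) (fun i _ => n0 z p i) (mem_univ i))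
        rcases hi with hi | hi
        · rw [if_pos hi]; split_ifs <;> norm_num
        · rw [if_pos hi]; split_ifs <;> norm_num
      have am : ∀ a : ℝ, a ≤ η * a ^ 2 + η⁻¹ / 2 := fun a => by
        have e : η * a ^ 2 + η⁻¹ / 2 - a = η * (a - η⁻¹ / 2) ^ 2 + η⁻¹ / 4 := by
          field_simp; ring
        have : 0 ≤ η * (a - η⁻¹ / 2) ^ 2 + η⁻¹ / 4 := by positivity
        linarith only [e, this]
      have a0 : 0 ≤ ∏ i, Lam P R (DD P z (c i)) ^ 2 := prod_nonneg fun _ _ => sq_nonneg _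
      have b0 : 0 ≤ ∏ i, Lam P R (DD P z (c' i)) ^ 2 := prod_nonneg fun _ _ => sq_nonneg _
      have i1 : η⁻¹ ≤ η⁻¹ * N z := le_mul_of_one_le_right (by positivity) N1
      have a1 := am (∏ i, Lam P R (DD P z (c i)) ^ 2)
      have b1 := am (∏ i, Lam P R (DD P z (c' i)) ^ 2)
      rw [abs_le]
      constructor <;> linarith only [a0, b0, a1, b1, i1]
    · push Not at hz
      have e : ∀ i, DD P z (c i) = DD P z (c' i) := fun i => funext fun p => by
        by_cases hb : (p : ℕ) ∈ Bd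
        · simp [DD, (hz p hb i).1, (hz p hb i).2]
        · simp only [DD, hc' i p p.2, if_neg hb]
      simp only [e, sub_self, abs_zero]
      positivity
  have k6 : |∑ z ∈ S, ∏ i, Lam P R (DD P z (c i)) ^ 2 - ∑ z ∈ S, ∏ i, Lam P R (DD P z (c' i)) ^ 2|
      ≤ η * ∑ z ∈ S, (∏ i, Lam P R (DD P z (c i)) ^ 2) ^ 2
        + η * ∑ z ∈ S, (∏ i, Lam P R (DD P z (c' i)) ^ 2) ^ 2 + η⁻¹ * ∑ z ∈ S, N z := by
    rw [← sum_sub_distrib, mul_sum, mul_sum, mul_sum, ← sum_add_distrib, ← sum_add_distrib]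
    exact (abs_sum_le_sum_abs _ _).trans (sum_le_sum fun z _ => k5 z)
  have k7 := mul_le_mul_of_nonneg_left k2 hη.le
  have k8 := mul_le_mul_of_nonneg_left k3 hη.le
  have k9 := mul_le_mul_of_nonneg_left k4 (inv_nonneg.2 hη.le)
  rw [abs_le] at k1 k6 ⊢
  constructor <;> linarith only [k1.1, k1.2, k6.1, k6.2, k7, k8, k9]

lemma bad_card {ι : Type} [Fintype ι] [DecidableEq ι] {W q L : ℕ}
    (hP : ∀ p ∈ P, p.Prime ∧ ¬ p ∣ W) (u : ι → ℕ) (hu : Function.Injective u)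
    (hq : ∀ i, u i < q) (hL : q ≤ 2 ^ L) :
    (P.filter fun p => ∃ i j, i ≠ j ∧ W * u i % p = W * u j % p).card
      ≤ Fintype.card ι ^ 2 * L := by
  classical
  have hsub : (P.filter fun p => ∃ i j, i ≠ j ∧ W * u i % p = W * u j % p) ⊆
      (univ : Finset (ι × ι)).biUnion fun e => P.filter fun p => u e.2 < u e.1 ∧ p ∣ u e.1 - u e.2 := by
    intro p hp
    obtain ⟨hp, i, j, hne, h⟩ := mem_filter.1 hp
    have h4 : u i ≡ u j [MOD p] := Nat.ModEq.cancel_left_of_coprime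
      ((Nat.Prime.coprime_iff_not_dvd (hP p hp).1).2 (hP p hp).2) h
    rcases lt_or_gt_of_ne (fun e => hne (hu e)) with h5 | h5
    · exact mem_biUnion.2 ⟨(j, i), mem_univ _, mem_filter.2
        ⟨hp, h5, (Nat.modEq_iff_dvd' h5.le).1 h4⟩⟩
    · exact mem_biUnion.2 ⟨(i, j), mem_univ _, mem_filter.2
        ⟨hp, h5, (Nat.modEq_iff_dvd' h5.le).1 h4.symm⟩⟩
  refine (card_le_card hsub).trans (card_biUnion_le.trans ((sum_le_card_nsmul _ _ L
    fun e _ => ?_).trans_eq (by simp [sq])))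
  by_cases h5 : u e.2 < u e.1
  · refine card_le_of_prod_le (fun p hp => (hP p (mem_filter.1 hp).1).1.two_le) ?_
    have h6 := Nat.le_of_dvd (Nat.sub_pos_of_lt h5) (Finset.prod_primes_dvd (u e.1 - u e.2)
      (s := P.filter fun p => u e.2 < u e.1 ∧ p ∣ u e.1 - u e.2)
      (fun p hp => (hP p (mem_filter.1 hp).1).1.prime) fun p hp => (mem_filter.1 hp).2.2)
    have := hq e.1
    omega
  · simp [h5]

end

end Pool.Agent.Work.MP_89ab3c_nt
end

section
/-!
# The majorant with explicit parameters, for windows of any width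
-/

set_option autoImplicit false

namespace Pool.Agent.Work.MP_89ab3c_nt

open Finset Pool.Agent.Lib.ANT

noncomputable section

variable {X : Type} [DecidableEq X]

theorem maj_wide [Fintype X] (v : X → ℕ) (hv : Function.Injective v) {q J s w y R W X₀ Z m L : ℕ}
    {θ e Λ₀ Λ U g σ η : ℝ} (hq : ∀ x, v x < q) (hJ : 1 ≤ J) (hw : 2 * J ≤ w)
    (hW : ∀ p : ℕ, p.Prime → p ≤ w → p ∣ W) (hqL : q ≤ 2 ^ L) (hJy : J ≤ y) (hy : 1 ≤ y) (hyR : y ≤ R) (hZ : 0 < Z)
    (hV : (VP (P0 y))⁻¹ ≤ Λ₀) (hU : UU (P2 y R W) ≤ U) (hg : ∀ h, GG J w q h ≤ g)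
    (hσ : ∑ p ∈ P0 y, (p : ℝ)⁻¹ ≤ σ) (h1 : 2 * Real.exp (-(m : ℝ) + 3 * J * σ) ≤ e)
    (h2 : (R : ℝ) ^ (4 * J) * ((y : ℝ) ^ (m + 1) * Real.exp (J * σ)) ≤ Z * e)
    (hη : 0 < η) (hηe : e ≤ η ^ 2)
    (h3 : 4 ^ J * (6 * J + 3) * (y : ℝ)⁻¹ ≤ e)
    (hθ : (J : ℝ) ^ 2 / w + 4 * e * U ^ (7 * J) * Λ₀ ^ (J + 1)
      + η * (6 * U ^ (4 * J + 16 ^ J) + 6 * J ^ 3 * L) * Λ₀ ^ (J + 1) ≤ θ) (hθ1 : θ ≤ 1)
    (hΛ : 3 * U ^ (2 * J + 4 ^ J) * (1 + J ^ 2 * g) * Λ₀ ≤ Λ)
    (hG : ∀ (κ : X → ℝ) (a : X) (D : ℝ), (∀ b, 0 ≤ κ b) → 0 ≤ D →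
      (∀ d : ℕ, 1 ≤ d → d ≤ q → ∑ b ∈ univ.filter fun b => (d : ℤ) ∣ (v a : ℤ) - v b, κ b
        ≤ D * (d : ℝ) ^ (-(1 / (s : ℝ)))) →
      ∑ b ∈ univ.erase a, κ b * GG J w q ((v a : ℤ) - v b) ≤ D * θ) :
    Maj v q J s θ Λ (Ioc X₀ (X₀ + Z)) (piW y W Z) (fun z x => nuW y R W z (W * v x))
      fun a b => GG J w q ((v a : ℤ) - v b) := by
  have pW : ∀ p ∈ (P0 y).filter (· ∣ W), p.Prime := fun p hp => P0_prime (mem_filter.1 hp).1
  have p1 : ∀ p ∈ (P0 y).filter (¬ · ∣ W), p.Prime := fun p hp => P0_prime (mem_filter.1 hp).1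
  have a0 := VP_pos pW
  have a1 := VP_le pW
  have b0 := VP_pos p1
  have b1 := VP_le p1
  have c1 : 1 ≤ Gp (P2 y R W) R := one_le_Gp (by omega)
  rw [← VP_split y W] at hV
  have sb := fun (S : Finset X) (hS : S.card ≤ J) => sing_bounds (W := W) (by omega) hw
    ((P0 y).filter (¬ · ∣ W)) (fun p hp => ⟨p1 p hp, lt_of_not_ge fun h =>
      (mem_filter.1 hp).2 (hW p (p1 p hp) h), (mem_filter.1 hp).2⟩) v hv hq S hS
  have ce := cor_eqX y R W X₀ Z v
  have me := main_eq y W v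
  set VW := VP ((P0 y).filter (· ∣ W))
  set V1 := VP ((P0 y).filter (¬ · ∣ W))
  set Γ := Gp (P2 y R W) R
  have hZ0 : (0 : ℝ) < Z := by exact_mod_cast hZ
  have a2 : VW⁻¹ ≤ Λ₀ := (inv_anti₀ (by positivity) (mul_le_of_le_one_right a0.le b1)).trans hV
  have b2 : V1⁻¹ ≤ Λ₀ := (inv_anti₀ (by positivity) (mul_le_of_le_one_left b0.le a1)).trans hV
  have L1 : 1 ≤ Λ₀ := (one_le_inv₀ a0 |>.2 a1).trans a2
  have U1 : 1 ≤ UU (P2 y R W) := one_le_UU
  have U2 : 1 ≤ U := U1.trans hU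
  have e0 : 0 ≤ e := le_trans (by positivity) h1
  have g0 : 0 ≤ g := (GG_nonneg _ _ _ 0).trans (hg 0)
  have R1 : (1 : ℝ) ≤ R := by exact_mod_cast hy.trans hyR
  have c2 : (Γ * V1)⁻¹ ≤ V1⁻¹ := inv_anti₀ b0 (le_mul_of_one_le_left b0.le c1)
  have c3 : ∀ n ≤ J, ((Z : ℝ) * VW)⁻¹ * (Γ * V1)⁻¹ ^ n * Z ≤ Λ₀ ^ (J + 1) := fun n hn => by
    clear * - Z VW Γ V1 n Λ₀ J hZ c1 b0 a0 a2 c2 b2 L1 q w y R hn
    calc _ = VW⁻¹ * (Γ * V1)⁻¹ ^ n := by field_simp
      _ ≤ Λ₀ * Λ₀ ^ n := by gcongr; exact c2.trans b2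
      _ ≤ _ := by rw [← pow_succ']; exact pow_le_pow_right₀ L1 (by omega)
  have t0 : 0 ≤ (J : ℝ) ^ 2 / w := by positivity
  have t3 : 0 ≤ η * (6 * U ^ (4 * J + 16 ^ J) + 6 * J ^ 3 * L) * Λ₀ ^ (J + 1) := by positivity
  have t1 : 4 * e * Λ₀ ^ (J + 1) ≤ 1 := by
    clear * - e Λ₀ J U U2 e0 L1 w θ hθ hθ1 t0 t3
    have : 4 * e * 1 * Λ₀ ^ (J + 1) ≤ 4 * e * U ^ (7 * J) * Λ₀ ^ (J + 1) := by
      gcongr; exact one_le_pow₀ U2
    linarith only [hθ, hθ1, t0, this, t3]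
  have t2 : e ≤ 1 := by nlinarith only [t1, e0, L1, one_le_pow₀ (n := J + 1) L1]
  have hE : ∀ n ≤ J, (R : ℝ) ^ (2 * n) * ((y : ℝ) ^ (m + 1) * Real.exp (J * σ)) ≤ Z * e :=
    fun n hn => le_trans (mul_le_mul_of_nonneg_right (pow_le_pow_right₀ R1 (by omega))
      (by positivity)) h2
  have hE4 : ∀ n ≤ J, (R : ℝ) ^ (4 * n) * ((y : ℝ) ^ (m + 1) * Real.exp (J * σ)) ≤ Z * e :=
    fun n hn => le_trans (mul_le_mul_of_nonneg_right (pow_le_pow_right₀ R1 (by omega))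
      (by positivity)) h2
  refine ⟨fun z => ?_, fun z x => ?_, fun a b => GG_nonneg _ _ _ _, fun l hl hn => ?_,
    fun l hl hn => ?_, hG⟩
  · unfold piW; split_ifs <;> positivity
  · unfold nuW; split_ifs <;> positivity
  · have hc : l.toFinset.card = l.length := List.toFinset_card_of_nodup hn
    obtain ⟨m0, m1⟩ := main_bounds y W v l.toFinset
    have kb := bad_card (P := P2 y R W) (W := W) (fun p hp => (mem_filter.1 hp).2)
      (fun i : Fin l.length => v l[i.1]) (fun i j h => Fin.ext ((hn.getElem_inj_iff).1 (hv h)))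
      (fun i => hq _) hqL
    have k1 := corr3 (R := R) (ε := e) (η := η) (fun p hp => (mem_filter.1 hp).2.1) hy
      (fun p hp => (mem_Ioc.1 (mem_filter.1 hp).1).1) (by rw [Fintype.card_fin]; omega)
      (dist_omX (R := R) (W := W) (X₀ := X₀) (Z := Z) (m := m) v l.toFinset hJ
      (hc ▸ hl) hy hσ) (mul_nonneg hZ0.le m0) (by positivity) (by positivity)
      (fun i : Fin l.length => W * v l[i.1]) kb hη
      (by
        clear * - X l y R W e J q w Z hy hyR R1 hl hJ h3 t2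
        rw [Fintype.card_fin]
        refine le_trans ?_ h3
        have h4 : ∑ p : P2 y R W, (((p : ℕ) : ℝ)⁻¹) ^ 2 ≤ (y : ℝ)⁻¹ := by
          rw [sum_coe_sort (P2 y R W) fun p => ((p : ℝ)⁻¹) ^ 2]
          refine (sum_le_sum_of_subset_of_nonneg (filter_subset _ _)
            fun _ _ _ => by positivity).trans ?_
          simp only [inv_pow]
          exact (sum_Ioc_inv_sq_le_sub (by omega) hyR).trans (sub_le_self _ (by positivity))
        refine mul_le_mul ?_ h4 (sum_nonneg fun _ _ => sq_nonneg _) (by positivity)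
        gcongr
        norm_num) t2
    rw [Fintype.card_fin] at k1
    have k2' : 2 * η * (UU (P2 y R W) ^ (4 * l.length) *
        ((Z * ∏ p ∈ P0 y, (1 - ((om W v l.toFinset p).card : ℝ) / p)
          + Z * (2 * Real.exp (-(m : ℝ) + 3 * J * σ))) * UU (P2 y R W) ^ 16 ^ l.length
          + (y : ℝ) ^ (m + 1) * Real.exp (J * σ) * (R * UU (P2 y R W)) ^ (4 * l.length)))
        + η⁻¹ * ((l.length ^ 2 * L : ℕ) * (l.length * (2 *
          ((Z * ∏ p ∈ P0 y, (1 - ((om W v l.toFinset p).card : ℝ) / p)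
          + Z * (2 * Real.exp (-(m : ℝ) + 3 * J * σ))) * (y : ℝ)⁻¹
          + (y : ℝ) ^ (m + 1) * Real.exp (J * σ)))))
        ≤ Z * (η * (6 * U ^ (4 * J + 16 ^ J) + 6 * J ^ 3 * L)) := by
      set Mv := Z * ∏ p ∈ P0 y, (1 - ((om W v l.toFinset p).card : ℝ) / p) with hMv
      set E1 := Z * (2 * Real.exp (-(m : ℝ) + 3 * J * σ)) with hE1
      set E2 := (y : ℝ) ^ (m + 1) * Real.exp (J * σ) with hE2
      have x0 : 0 ≤ Mv := mul_nonneg hZ0.le m0
      have x1 : Mv ≤ Z := mul_le_of_le_one_right hZ0.le m1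
      have x2 : 0 ≤ E1 := by positivity
      have x3 : E1 ≤ Z := mul_le_of_le_one_right hZ0.le (h1.trans t2)
      have x4 : 0 ≤ E2 := by positivity
      have x5 : (R : ℝ) ^ (4 * l.length) * E2 ≤ Z * e := hE4 _ hl
      have x6 : E2 ≤ Z * e := (le_mul_of_one_le_left x4 (one_le_pow₀ R1)).trans x5
      have x7 : (y : ℝ)⁻¹ ≤ e := by
        refine le_trans (le_mul_of_one_le_left (by positivity) ?_) h3
        exact one_le_mul_of_one_le_of_one_le (one_le_pow₀ (by norm_num))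
          (by have : (0 : ℝ) ≤ J := Nat.cast_nonneg J
              linarith only [this])
      have x8 : (l.length : ℝ) ≤ J := by exact_mod_cast hl
      clear_value Mv E1 E2
      clear * - y R W X l Z J e U η L Mv E1 E2 x0 x1 x2 x3 x4 x5 x6 x7 x8 U1 U2 hU hl hZ0 t2 e0 hη
        hηe R1 hy
      have u1 : UU (P2 y R W) ^ (4 * l.length) ≤ U ^ (4 * J) :=
        (pow_le_pow_left₀ (by linarith only [U1]) hU _).trans (pow_le_pow_right₀ U2 (by omega))
      have u2 : UU (P2 y R W) ^ 16 ^ l.length ≤ U ^ 16 ^ J :=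
        (pow_le_pow_left₀ (by linarith only [U1]) hU _).trans (pow_le_pow_right₀ U2
          (Nat.pow_le_pow_right (by norm_num) hl))
      have u3 : U ^ (4 * J) ≤ U ^ 16 ^ J := pow_le_pow_right₀ U2 (by
        rw [show 16 = 2 ^ 4 by norm_num, ← pow_mul]; exact Nat.lt_two_pow_self.le)
      have u0 : 0 ≤ UU (P2 y R W) := by linarith only [U1]
      have u4 : 0 ≤ U ^ 16 ^ J := by positivity
      have z1 : (Mv + E1) * UU (P2 y R W) ^ 16 ^ l.length ≤ (Z + Z) * U ^ 16 ^ J :=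
        mul_le_mul (add_le_add x1 x3) u2 (by positivity) (by positivity)
      have z2 : E2 * (R * UU (P2 y R W)) ^ (4 * l.length) ≤ Z * U ^ 16 ^ J := by
        rw [mul_pow, ← mul_assoc, mul_comm E2]
        exact mul_le_mul (x5.trans (mul_le_of_le_one_right hZ0.le t2)) (u1.trans u3)
          (by positivity) hZ0.le
      have z3 : UU (P2 y R W) ^ (4 * l.length) * ((Mv + E1) * UU (P2 y R W) ^ 16 ^ l.length
          + E2 * (R * UU (P2 y R W)) ^ (4 * l.length)) ≤ 3 * Z * U ^ (4 * J + 16 ^ J) :=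
        (mul_le_mul u1 (add_le_add z1 z2) (by positivity) (by positivity)).trans_eq (by ring)
      have z4 : (Mv + E1) * (y : ℝ)⁻¹ + E2 ≤ 3 * Z * η ^ 2 := by
        have := mul_le_mul (add_le_add x1 x3) x7 (by positivity) (by positivity)
        nlinarith only [this, x6, mul_le_mul_of_nonneg_left hηe hZ0.le]
      have z5 : ((l.length ^ 2 * L : ℕ) : ℝ) * (l.length * (2 * ((Mv + E1) * (y : ℝ)⁻¹ + E2)))
          ≤ J ^ 2 * L * (J * (2 * (3 * Z * η ^ 2))) := by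
        push_cast
        gcongr
      calc _ ≤ 2 * η * (3 * Z * U ^ (4 * J + 16 ^ J))
            + η⁻¹ * (J ^ 2 * L * (J * (2 * (3 * Z * η ^ 2)))) :=
            add_le_add (mul_le_mul_of_nonneg_left z3 (by positivity))
              (mul_le_mul_of_nonneg_left z5 (by positivity))
        _ = _ := by field_simp; ring
    have k2 : UU (P2 y R W) ^ (7 * l.length) * (Z * (2 * Real.exp (-(m : ℝ) + 3 * J * σ))
        + (R : ℝ) ^ (2 * l.length) * ((y : ℝ) ^ (m + 1) * Real.exp (J * σ)))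
        + |Z * ∏ p ∈ P0 y, (1 - ((om W v l.toFinset p).card : ℝ) / p)| *
          UU (P2 y R W) ^ l.length * (2 * e) ≤ Z * (4 * e * U ^ (7 * J)) := by
      clear * - y R W X l Z m J σ v e U hZ m0 U1 hU U2 q w hl hc h1 hE R1 hy m1 e0
      rw [abs_of_nonneg (by clear * - Z y X W v l hZ m0; positivity)]
      have u1 : UU (P2 y R W) ^ (7 * l.length) ≤ U ^ (7 * J) :=
        (pow_le_pow_left₀ (by linarith only [U1]) hU _).trans (pow_le_pow_right₀ U2 (by omega))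
      have u2 : UU (P2 y R W) ^ l.length ≤ U ^ (7 * J) :=
        (pow_le_pow_left₀ (by linarith only [U1]) hU _).trans (pow_le_pow_right₀ U2 (by omega))
      calc _ ≤ U ^ (7 * J) * (Z * e + Z * e) + Z * 1 * U ^ (7 * J) * (2 * e) :=
            add_le_add (mul_le_mul u1 (add_le_add (by gcongr) (hE _ hl)) (by positivity)
              (by positivity)) (by clear * - e Z y X W v l R U J m1 hZ u2 U1 e0; gcongr)
        _ = _ := by ring
    have k3 : |∑ z ∈ Ioc X₀ (X₀ + Z), piW y W Z z * (l.map fun x => nuW y R W z (W * v x)).prod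
        - sing y W v l.toFinset| ≤ (4 * e * U ^ (7 * J)
          + η * (6 * U ^ (4 * J + 16 ^ J) + 6 * J ^ 3 * L)) * Λ₀ ^ (J + 1) := by
      clear * - X y W v l Z VW Γ V1 me hc hZ a0 c1 b0 R e U J Λ₀ ce q w m σ k1 k2 k2' c3 hl e0 U2 η
        hη L
      have : sing y W v l.toFinset = ((Z : ℝ) * VW)⁻¹ * (Γ * V1)⁻¹ ^ l.length *
          (Z * (∏ p ∈ P0 y, (1 - ((om W v l.toFinset p).card : ℝ) / p)) * Γ ^ l.length) := by
        rw [me, hc, inv_pow, mul_pow]; field_simp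
      rw [ce, this, ← mul_sub, abs_mul, abs_of_nonneg (by positivity)]
      refine (mul_le_mul_of_nonneg_left (k1.trans ((add_le_add k2 k2').trans_eq
        (mul_add _ _ _).symm)) (by positivity)).trans ?_
      rw [← mul_assoc, mul_comm]
      exact mul_le_mul_of_nonneg_left (c3 _ hl) (by positivity)
    obtain ⟨s1, s2⟩ := sb l.toFinset (hc ▸ hl)
    have s3 : 0 ≤ ∑ p ∈ l.toFinset.offDiag, GG J w q ((v p.1 : ℤ) - v p.2) :=
      sum_nonneg fun _ _ => GG_nonneg _ _ _ _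
    rw [abs_le, add_mul] at k3
    rw [abs_le]
    unfold sing at k3
    constructor <;> linarith only [hθ, k3, s1, s3, t0, s2, k3.1, k3.2]
  · have hd := dfc_add_card l
    have hd1 : 1 ≤ dfc l := by
      by_contra h
      exact hn ((Multiset.toFinset_card_eq_card_iff_nodup (m := (l : Multiset X))).1
        (show l.toFinset.card = l.length by omega))
    obtain ⟨m0, m1⟩ := main_bounds y W v l.toFinset
    have k1 := corr2 (R := R) P2_two (dist_omX (R := R) (W := W) (X₀ := X₀) (Z := Z) (m := m) v l.toFinset hJ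
      (by omega) hy hσ) (by clear * - Z y X W v l hZ m0; positivity) (by positivity) (by positivity)
      (fun i : Fin l.length => W * v l[i.1])
    rw [Fintype.card_fin] at k1
    have s2 : sing y W v l.toFinset ≤ 1 + J ^ 2 * g := by
      clear * - W y X v l J w q g sb R Z hl hd hd1 hg g0
      refine (sb l.toFinset (by omega)).2.trans (add_le_add le_rfl ?_)
      refine (sum_le_card_nsmul _ _ g fun _ _ => hg _).trans ?_
      rw [nsmul_eq_mul, offDiag_card]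
      refine mul_le_mul_of_nonneg_right ?_ g0
      have : l.toFinset.card * l.toFinset.card ≤ J * J := Nat.mul_le_mul (by omega) (by omega)
      exact_mod_cast (show _ ≤ J ^ 2 by rw [sq]; omega)
    have u1 : UU (P2 y R W) ^ (2 * l.length) ≤ U ^ (2 * J) :=
      (pow_le_pow_left₀ (by linarith only [U1]) hU _).trans (pow_le_pow_right₀ U2 (by omega))
    have u2 : UU (P2 y R W) ^ 4 ^ l.length ≤ U ^ 4 ^ J :=
      (pow_le_pow_left₀ (by linarith only [U1]) hU _).trans (pow_le_pow_right₀ U2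
        (Nat.pow_le_pow_right (by norm_num) hl))
    have u3 : U ^ (2 * J) ≤ U ^ 4 ^ J := pow_le_pow_right₀ U2 (by
      rw [show 4 = 2 ^ 2 by norm_num, ← pow_mul]; exact Nat.lt_two_pow_self.le)
    set Mv := Z * ∏ p ∈ P0 y, (1 - ((om W v l.toFinset p).card : ℝ) / p) with hMv
    have k2 : UU (P2 y R W) ^ (2 * l.length) *
        ((Mv + Z * (2 * Real.exp (-(m : ℝ) + 3 * J * σ))) * UU (P2 y R W) ^ 4 ^ l.length
        + (y : ℝ) ^ (m + 1) * Real.exp (J * σ) * (R * UU (P2 y R W)) ^ (2 * l.length))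
        ≤ U ^ (2 * J + 4 ^ J) * (Mv + Z * (2 * e)) := by
      clear * - y R W X l Mv Z m J σ U e u1 h1 hZ u2 U1 v m0 e0 hE hl u3 R1 hy U2
      rw [mul_pow, ← mul_assoc (_ * _), mul_comm _ ((R : ℝ) ^ _)]
      calc _ ≤ U ^ (2 * J) * ((Mv + Z * e) * U ^ 4 ^ J + Z * e * U ^ 4 ^ J) :=
            mul_le_mul u1 (add_le_add (by gcongr) (mul_le_mul (hE _ hl) (u1.trans u3)
              (by positivity) (by positivity))) (by clear * - Mv Z m J σ y R W X l v hZ m0 U1 R1 hy; positivity) (by positivity)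
        _ = _ := by ring
    have k3 : ((Z : ℝ) * VW)⁻¹ * (Γ * V1)⁻¹ ^ l.length * Mv ≤ (1 + J ^ 2 * g) * Λ₀ ^ dfc l := by
      clear * - X y W v l VW V1 me m0 a0 b0 Z Γ Mv J g Λ₀ c1 c2 hZ hMv hd s2 b2 hJ g0
      have s0 : 0 ≤ sing y W v l.toFinset := by
        rw [me] at m0
        exact nonneg_of_mul_nonneg_right m0 (by positivity) |> id
      calc _ ≤ ((Z : ℝ) * VW)⁻¹ * V1⁻¹ ^ l.length * Mv := by gcongr
        _ = sing y W v l.toFinset * V1⁻¹ ^ dfc l := by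
            rw [hMv, me, ← hd, pow_add, inv_pow _ l.toFinset.card]; field_simp
        _ ≤ _ := by clear * - X y W v l J g V1 Λ₀ s2 b0 b2 hJ g0; gcongr
    have k4 : ((Z : ℝ) * VW)⁻¹ * (Γ * V1)⁻¹ ^ l.length * (Z * (2 * e)) ≤ 1 := by
      clear * - Z VW Γ V1 X l e Λ₀ J t1 c3 hl e0 L1
      rw [← mul_assoc]
      linarith only [t1, c3, hl, e0, mul_le_mul_of_nonneg_right (c3 _ hl) (show 0 ≤ 2 * e by positivity),
        mul_nonneg e0 (pow_nonneg (zero_le_one.trans L1) (J + 1))]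
    set A := U ^ (2 * J + 4 ^ J) * (1 + J ^ 2 * g) with hA
    have A0 : 1 ≤ U ^ (2 * J + 4 ^ J) := one_le_pow₀ U2
    have A1 : 1 ≤ 1 + (J : ℝ) ^ 2 * g := le_add_of_nonneg_right (by positivity)
    have A2 : 1 ≤ Λ₀ ^ dfc l := one_le_pow₀ L1
    have A3 : 1 ≤ (1 + J ^ 2 * g) * Λ₀ ^ dfc l := one_le_mul_of_one_le_of_one_le A1 A2
    have A4 : 1 ≤ A := one_le_mul_of_one_le_of_one_le A0 A1
    have k5 : ∑ z ∈ Ioc X₀ (X₀ + Z), piW y W Z z * (l.map fun x => nuW y R W z (W * v x)).prod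
        ≤ 2 * (A * Λ₀ ^ dfc l) := by
      clear * - Z y W X R v l A Λ₀ VW Γ V1 ce q J w hd U Mv e m σ k1 k2 hZ a0 c1 b0 g hA k3 k4 A3 U2
      rw [ce]
      refine (mul_le_mul_of_nonneg_left (k1.trans k2) (by positivity)).trans ?_
      rw [mul_left_comm, mul_add, hA, mul_assoc (U ^ _), mul_left_comm 2]
      exact mul_le_mul_of_nonneg_left (by linarith only [k3, k4, A3]) (by positivity)
    have k6 : 0 ≤ ∑ z ∈ Ioc X₀ (X₀ + Z), piW y W Z z * (l.map fun x => nuW y R W z (W * v x)).prod := by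
      clear * - Z y W X R v l VW Γ V1 ce hZ a0 c1 b0
      rw [ce]
      exact mul_nonneg (by positivity) (sum_nonneg fun _ _ => prod_nonneg fun _ _ => sq_nonneg _)
    have k7 : 3 * A * Λ₀ ^ dfc l ≤ Λ ^ dfc l := by
      clear * - A Λ₀ X l Λ U J g A4 q w y R Z hd1 L1 U2 hJ g0 hA hΛ
      refine le_trans ?_ (pow_le_pow_left₀ (by positivity) (show 3 * A * Λ₀ ≤ Λ by
        rw [hA, ← mul_assoc]; exact hΛ) _)
      rw [mul_pow]
      exact mul_le_mul_of_nonneg_right (le_self_pow₀ (by linarith only [A4]) (by omega)) (by positivity)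
    have k8 : 1 ≤ A * Λ₀ ^ dfc l := one_le_mul_of_one_le_of_one_le A4 A2
    rw [abs_le]
    constructor <;> linarith only [k6, k7, k8, k5]

end

end Pool.Agent.Work.MP_89ab3c_nt
end

section
/-!
# The transference theorem for the primes without a bound on the width of the window
-/

set_option autoImplicit false

namespace Pool.Agent.Work.MP_89ab3c_nt

open Finset Pool.Agent.Lib.ANT Filter Real

noncomputable section

lemma ev_poly_exp8 (C K : ℝ) {γ : ℝ} (hγ : 0 < γ) :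
    ∀ᶠ l : ℝ in atTop, C * l ^ K ≤ exp (l ^ γ / 8) := by
  have h := ((tendsto_exp_mul_div_rpow_atTop (K / γ) (1 / 8) (by norm_num)).comp
    (tendsto_rpow_atTop hγ)).eventually_ge_atTop C
  filter_upwards [h, eventually_gt_atTop 0] with l h1 h2
  simp only [Function.comp] at h1
  rw [← rpow_mul h2.le, mul_div_cancel₀ _ hγ.ne', le_div_iff₀ (by positivity)] at h1
  rwa [one_div_mul_eq_div] at h1

theorem majorant_wide (J s : ℕ) (hJ : 1 ≤ J) (hs : 1 ≤ s) {ε θ : ℝ} (hε : 0 < ε)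
    (hθ : 0 < θ) : ∃ w : ℕ, ∀ᶠ N : ℕ in atTop, ∀ X₀ W q : ℕ, 1 ≤ W → W ≤ N →
      (∀ p : ℕ, p.Prime → p ≤ w → p ∣ W) → 3 ≤ q → q ≤ 2 * N →
      ∀ (X : Type) [Fintype X] [DecidableEq X] (v : X → ℕ), Function.Injective v → (∀ x, v x < q) →
      ∃ (pp : ℕ → ℝ) (ν : ℕ → X → ℝ) (G : X → X → ℝ) (R : ℕ),
        Maj v q J s θ (log N ^ (1 + ε) * log q ^ (2 * J ^ 3)) (Ioc X₀ (X₀ + 3 * N)) pp ν G ∧
        (R : ℝ) ≤ exp (log N / 4) ∧
        ∀ n x, n.Prime → R < n → log N / (192 * J * N) ≤ pp (n + W * v x) * ν (n + W * v x) x := by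
  set θ' := min θ 1 with hθ'
  have t0 : 0 < θ' := by positivity
  obtain ⟨w₀, hw₀⟩ := GG_sum J s hs t0
  set w := max (max w₀ (2 * J)) ⌈2 * (J : ℝ) ^ 2 / θ'⌉₊ with hw
  have w1 : 2 * J ≤ w := (le_max_right _ _).trans (le_max_left _ _)
  have w2 : (J : ℝ) ^ 2 / w ≤ θ' / 2 := by
    have : 2 * (J : ℝ) ^ 2 / θ' ≤ w := (Nat.le_ceil _).trans (Nat.cast_le.2 (le_max_right _ _))
    rw [div_le_iff₀ t0] at this
    rw [div_le_iff₀ (by exact_mod_cast (show 0 < w by omega))]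
    linarith only [this]
  set K : ℕ := 2 * J + 4 ^ J with hK
  have K0 : (0 : ℝ) < K := by positivity
  set γ := min (1 / 2) (ε / (2 * K)) with hγ
  have g0 : 0 < γ := by positivity
  set cJ : ℝ := 2 * (4 ^ J * (6 * J + 3)) + 2 * exp 2 with hcJ
  refine ⟨w, ?_⟩
  have hlog : Tendsto (fun N : ℕ => log N) atTop atTop :=
    tendsto_log_atTop.comp tendsto_natCast_atTop_atTop
  set K' : ℕ := 4 * J + 16 ^ J with hK'
  filter_upwards [hlog.eventually (ev_poly_exp8 (4 * cJ * (6 + 6 * J ^ 3) *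
      exp 73 ^ (4 * J + 1 + K') / θ') (4 * J + 1 + K' : ℕ) g0),
    hlog.eventually (ev_poly_exp 12 1 g0),
    hlog.eventually (ev_poly_exp (16 * cJ * exp 73 ^ (11 * J + 1) / θ') (11 * J + 1 : ℕ) g0),
    hlog.eventually ((tendsto_rpow_atTop (half_pos hε)).eventually_ge_atTop
      (3 * 6 ^ K * exp 73 * (1 + J ^ 2 * exp 72 ^ (2 * J ^ 3)))),
    hlog.eventually ((tendsto_rpow_atTop g0).eventually_ge_atTop (96 + 8 * J)),
    hlog.eventually (eventually_ge_atTop 3), eventually_gt_atTop 0]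
    with N e1 e2 e3 e4 e5 e6 hN X₀ W q hW1 hWN hW hq2 hq X _ _ v hv hvq
  have hN0 : (0 : ℝ) < N := by exact_mod_cast hN
  have hNl : (N : ℝ) = exp (log N) := (exp_log hN0).symm
  set l := log N with hl
  set t := l ^ γ with ht
  have l0 : 0 < l := by linarith only [e6]
  have J1 : (1 : ℝ) ≤ J := by exact_mod_cast hJ
  have tt0 : 0 < t := by linarith only [e5, J1]
  have tt1 : t ≤ l / t := by
    rw [le_div_iff₀ tt0, ht, ← rpow_add l0]
    conv_rhs => rw [← rpow_one l]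
    exact rpow_le_rpow_of_exponent_le (by linarith only [e6]) (by linarith only [min_le_left (1 / 2) (ε / (2 * K))])
  have tt2 : l / t ≤ l / (8 * J) := div_le_div_of_nonneg_left l0.le (by positivity) (by linarith only [e5])
  have tt3 : l / (8 * J) ≤ l / 4 := div_le_div_of_nonneg_left l0.le (by positivity) (by linarith only [J1])
  obtain ⟨y1, y2, y3, y4⟩ := floor_exp (x := l / t) (by linarith only [e5, J1, tt1])
  obtain ⟨r1, r2, r3, r4⟩ := floor_exp (x := l / (8 * J)) (by linarith only [e5, J1, tt1, tt2])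
  set y := ⌊exp (l / t)⌋₊ with hy
  set R := ⌊exp (l / (8 * J))⌋₊ with hR
  have hyR : y ≤ R := Nat.floor_mono (exp_le_exp.2 tt2)
  have y5 : exp (t / 4) / 2 ≤ y := le_trans (div_le_div_of_nonneg_right (exp_le_exp.2 (by linarith only [tt1, tt0])) zero_le_two) y1
  rw [rpow_one] at e2
  have y6 : 2 ≤ y := by exact_mod_cast (show (2 : ℝ) ≤ y by linarith only [e2, e5, J1, tt1, tt2, tt3, y5])
  have y0 : (0 : ℝ) < y := by positivity
  have y7 : log y ≤ l := by linarith only [e5, J1, tt1, tt2, tt3, y4]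
  have ll : 1 ≤ log l := by
    rw [le_log_iff_exp_le l0]; linarith only [e5, J1, tt1, tt2, tt3, exp_one_lt_d9]
  obtain ⟨m, hm⟩ : ∃ m, ⌊t / 4⌋₊ = m + 1 :=
    Nat.exists_eq_add_one.2 (Nat.floor_pos.2 (by linarith only [e5, J1]))
  have m1 : (m : ℝ) + 1 ≤ t / 4 := by
    have := Nat.floor_le (show 0 ≤ t / 4 by positivity)
    rwa [hm, Nat.cast_succ] at this
  have m2 : t / 4 ≤ m + 2 := by
    have := Nat.lt_floor_add_one (t / 4)
    rw [hm, Nat.cast_succ] at this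
    linarith only [this]
  set Λ₀ := exp 73 * l with hΛ₀
  have L1 : 1 ≤ Λ₀ := by nlinarith only [add_one_le_exp 73, e6, hΛ₀]
  have L2 : exp (log l + 72) ≤ Λ₀ := by
    rw [exp_add, exp_log l0, mul_comm]
    exact mul_le_mul_of_nonneg_right (exp_le_exp.2 (by norm_num)) l0.le
  have L3 : 6 * t ≤ Λ₀ := by nlinarith only [add_one_le_exp 73, e6, hΛ₀, tt1, tt2, tt3]
  have c0 : 0 < exp 2 := exp_pos 2
  have c1 : (0 : ℝ) < 4 ^ J * (6 * J + 3) := by positivity
  have c2 : 1 ≤ cJ := by linarith only [c0, c1, add_one_le_exp 2]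
  have L4 : 1 ≤ Λ₀ ^ (3 * J) := one_le_pow₀ L1
  have b0 : N ≤ 2 ^ ⌈2 * l⌉₊ := by
    clear * - N l hNl l0
    have : (N : ℝ) ≤ 2 ^ ⌈2 * l⌉₊ := by
      calc _ = exp l := hNl
        _ ≤ exp (⌈2 * l⌉₊ * log 2) := exp_le_exp.2 (by
          nlinarith only [Nat.le_ceil (2 * l), log_two_gt_d9, l0])
        _ = _ := by rw [exp_nat_mul, exp_log two_pos]
    exact_mod_cast this
  have L5 : ((⌈2 * l⌉₊ + 1 : ℕ) : ℝ) ≤ Λ₀ := by
    have := Nat.ceil_lt_add_one (show 0 ≤ 2 * l by positivity)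
    push_cast
    nlinarith only [add_one_le_exp 73, e6, hΛ₀, this]
  have q1 : 1 ≤ log q := by
    rw [le_log_iff_exp_le (by positivity)]
    exact exp_one_lt_d9.le.trans (le_trans (by norm_num) (show (3 : ℝ) ≤ q by exact_mod_cast hq2))
  have hM := maj_wide v hv (s := s) (w := w) (y := y) (R := R) (W := W) (X₀ := X₀) (Z := 3 * N) (m := m)
    (L := ⌈2 * l⌉₊ + 1) (η := cJ * Λ₀ ^ (3 * J) * exp (-(t / 8)))
    (θ := θ') (e := cJ * Λ₀ ^ (3 * J) * exp (-(t / 4))) (Λ₀ := Λ₀)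
    (Λ := l ^ (1 + ε) * log q ^ (2 * J ^ 3)) (U := 6 * t)
    (g := exp 72 ^ (2 * J ^ 3) * log q ^ (2 * J ^ 3)) (σ := log l + 72) hvq hJ w1 hW
    (by rw [pow_succ]; omega)
    (by exact_mod_cast (show (J : ℝ) ≤ y by linarith only [e2, e5, J1, tt1, tt2, tt3, y5]))
    (by omega) hyR (by omega)
    (by
      rw [VP, ← prod_inv_distrib]
      exact (prod_one_sub_inv_prime_inv_le y y6).trans (mul_le_mul_of_nonneg_left y7 (exp_pos _).le))
    ((UU_le y6 hyR (by linarith only [e5, J1, tt1, y3])).trans (by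
      clear * - R y t J l e5 J1 tt1 y3 tt0 e6 tt2 tt3 r4 γ
      rw [← mul_div_assoc, div_le_iff₀ (by linarith only [e5, J1, tt1, y3])]
      calc _ ≤ 6 * t * (l / t / 2) := by
            rw [show 6 * t * (l / t / 2) = 3 * l by field_simp; norm_num]; linarith only [e5, J1, tt1, tt2, tt3, r4]
        _ ≤ _ := by gcongr))
    (fun h => (GG_le J w (by omega) h).trans (by
      clear * - q q1 J
      have q0 : 0 < log q := by linarith only [q1]
      rw [show 2 * (J : ℝ) ^ 3 = (2 * J ^ 3 : ℕ) by push_cast; rfl, exp_nat_mul, exp_add,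
        exp_log q0, ← mul_pow, mul_comm]))
    (by
      clear * - y y6 l J t e5 J1 tt1 y3 y7
      have := (abs_le.1 (abs_sum_inv_prime_sub_loglog_le y y6)).2
      have := log_le_log (by linarith only [e5, J1, tt1, y3]) y7
      unfold P0
      linarith)
    (by
      clear * - m J l cJ Λ₀ t m2 L2 c1 e6
      rw [show 3 * (J : ℝ) = (3 * J : ℕ) by push_cast; rfl, exp_add, exp_nat_mul]
      calc _ ≤ 2 * (exp (2 + -(t / 4)) * Λ₀ ^ (3 * J)) := by gcongr; linarith only [m2]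
        _ = 2 * exp 2 * Λ₀ ^ (3 * J) * exp (-(t / 4)) := by rw [exp_add]; ring
        _ ≤ _ := by gcongr; linarith only [c1])
    (by
      clear * - R J l r2 hJ e6 y m t y6 y2 m1 γ tt0 Λ₀ L2 L1 s ε θ w₀ N W q cJ hNl hN c2 e5 J1 tt1
        tt2 tt3
      have a1 : (R : ℝ) ^ (4 * J) ≤ exp (l / 2) := (pow_le_pow_left₀ (by positivity) r2 _).trans_eq
        (by rw [← exp_nat_mul]; congr 1; push_cast; field_simp; norm_num)
      have a2 : (y : ℝ) ^ (m + 1) ≤ exp (l / 4) := (pow_le_pow_left₀ (by positivity) y2 _).trans (by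
        rw [← exp_nat_mul]
        refine exp_le_exp.2 ?_
        push_cast
        calc _ ≤ t / 4 * (l / t) := by gcongr
          _ = _ := by field_simp)
      have a3 : exp (J * (log l + 72)) ≤ Λ₀ ^ (3 * J) := by
        rw [exp_nat_mul]
        exact (pow_le_pow_left₀ (by positivity) L2 _).trans (pow_le_pow_right₀ L1 (by omega))
      calc _ ≤ exp (l / 2) * (exp (l / 4) * Λ₀ ^ (3 * J)) := by clear * - R J l y m Λ₀ a1 a2 a3 y6 J1 e5 hNl tt1 tt2 tt3; gcongr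
        _ = 1 * exp l * (1 * Λ₀ ^ (3 * J) * exp (-(l / 4))) := by
          rw [← mul_assoc, ← exp_add, one_mul, one_mul, mul_comm (Λ₀ ^ _), ← mul_assoc, ← exp_add]
          congr 2; ring
        _ ≤ _ := by
          clear * - l Λ₀ J N cJ t hNl hN c2 e6 e5 J1 tt1 tt2 tt3 hJ
          push_cast
          rw [← hNl]
          gcongr
          · norm_num
          · linarith only [e5, J1, tt1, tt2, tt3])
    (by positivity)
    (by
      clear * - J cJ Λ₀ t c2 L4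
      have a1 : 1 ≤ cJ * Λ₀ ^ (3 * J) := one_le_mul_of_one_le_of_one_le c2 L4
      rw [mul_pow _ (exp _), ← exp_nat_mul, show ((2 : ℕ) : ℝ) * -(t / 8) = -(t / 4) by
        push_cast; ring]
      exact mul_le_mul_of_nonneg_right (le_self_pow₀ a1 two_ne_zero) (exp_pos _).le)
    (by
      clear * - y t y5 J cJ Λ₀ hJ c0 L4
      have a1 : (y : ℝ)⁻¹ ≤ 2 * exp (-(t / 4)) := by
        rw [exp_neg, ← div_eq_mul_inv, ← inv_div]
        exact inv_anti₀ (by positivity) y5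
      calc _ ≤ 4 ^ J * (6 * J + 3) * (2 * exp (-(t / 4))) := by gcongr
        _ = 2 * (4 ^ J * (6 * J + 3)) * 1 * exp (-(t / 4)) := by ring
        _ ≤ _ := by gcongr; linarith only [c0])
    (by
      clear * - cJ Λ₀ J t θ' l e6 γ L3 hJ hΛ₀ t0 e3 w w2 e1 K' hK' L5 L1 c2 tt0
      have a1 : 4 * (cJ * Λ₀ ^ (3 * J) * exp (-(t / 4))) * (6 * t) ^ (7 * J) * Λ₀ ^ (J + 1)
          ≤ θ' / 4 := by
        rw [rpow_natCast, div_mul_eq_mul_div, div_le_iff₀ t0] at e3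
        calc _ ≤ 4 * (cJ * Λ₀ ^ (3 * J) * exp (-(t / 4))) * Λ₀ ^ (7 * J) * Λ₀ ^ (J + 1) := by gcongr
          _ = 16 * cJ * exp 73 ^ (11 * J + 1) * l ^ (11 * J + 1) * exp (-(t / 4)) / 4 := by
            rw [mul_assoc (16 * cJ), ← mul_pow, ← hΛ₀]; ring
          _ ≤ exp (t / 4) * θ' * exp (-(t / 4)) / 4 := by gcongr
          _ = _ := by rw [mul_right_comm, ← exp_add]; simp
      have a2 : cJ * Λ₀ ^ (3 * J) * exp (-(t / 8)) * (6 * (6 * t) ^ (4 * J + 16 ^ J)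
          + 6 * J ^ 3 * ((⌈2 * l⌉₊ + 1 : ℕ) : ℝ)) * Λ₀ ^ (J + 1) ≤ θ' / 4 := by
        rw [rpow_natCast, div_mul_eq_mul_div, div_le_iff₀ t0] at e1
        have a3 : (6 * t) ^ (4 * J + 16 ^ J) ≤ Λ₀ ^ K' := pow_le_pow_left₀ (by positivity) L3 _
        have a4 : ((⌈2 * l⌉₊ + 1 : ℕ) : ℝ) ≤ Λ₀ ^ K' := L5.trans (le_self_pow₀ L1 (by rw [hK']; positivity))
        calc _ ≤ cJ * Λ₀ ^ (3 * J) * exp (-(t / 8)) * (6 * Λ₀ ^ K' + 6 * J ^ 3 * Λ₀ ^ K')
              * Λ₀ ^ (J + 1) := by gcongr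
          _ = 4 * cJ * (6 + 6 * J ^ 3) * exp 73 ^ (4 * J + 1 + K') * l ^ (4 * J + 1 + K')
              * exp (-(t / 8)) / 4 := by
            rw [mul_assoc (4 * cJ * _), ← mul_pow, ← hΛ₀]; ring
          _ ≤ exp (t / 8) * θ' * exp (-(t / 8)) / 4 := by gcongr
          _ = _ := by rw [mul_right_comm, ← exp_add]; simp
      linarith only [w2, a1, a2])
    (min_le_right _ _)
    (by
      clear * - t K l ε γ ht l0 J e5 J1 tt1 tt2 tt3 hJ K0 hε q q1 Λ₀ hK hΛ₀ e6 e4 tt0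
      have a1 : t ^ K ≤ l ^ (ε / 2) := by
        rw [ht, ← rpow_mul_natCast l0.le]
        refine rpow_le_rpow_of_exponent_le (by linarith only [e5, J1, tt1, tt2, tt3]) ?_
        calc _ ≤ ε / (2 * K) * K := by gcongr; exact min_le_right _ _
          _ = _ := by field_simp
      have a2 : 1 ≤ log q ^ (2 * J ^ 3) := one_le_pow₀ q1
      calc _ = 3 * 6 ^ K * exp 73 * (1 + J ^ 2 * (exp 72 ^ (2 * J ^ 3) *
            log q ^ (2 * J ^ 3))) * t ^ K * l := by rw [← hK, mul_pow 6 t, hΛ₀]; ring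
        _ ≤ 3 * 6 ^ K * exp 73 * (log q ^ (2 * J ^ 3) + J ^ 2 * (exp 72 ^ (2 * J ^ 3) *
            log q ^ (2 * J ^ 3))) * l ^ (ε / 2) * l := by gcongr
        _ = 3 * 6 ^ K * exp 73 * (1 + J ^ 2 * exp 72 ^ (2 * J ^ 3)) * l ^ (ε / 2) * l *
            log q ^ (2 * J ^ 3) := by ring
        _ ≤ l ^ (ε / 2) * l ^ (ε / 2) * l * log q ^ (2 * J ^ 3) := by gcongr
        _ = _ := by rw [← rpow_add l0, rpow_add l0 1, rpow_one, add_halves, mul_comm l])
    (hw₀ w ((le_max_left _ _).trans (le_max_left _ _)) q X v hv hvq)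
  refine ⟨_, _, _, R, hM.mono (min_le_left _ _), r2.trans (exp_le_exp.2 tt3), fun n x hn hRn => ?_⟩
  have b1 : R ≤ N := by
    clear * - R N l J r2 hNl t e5 J1 tt1 tt2 tt3
    exact_mod_cast (show (R : ℝ) ≤ N from r2.trans (by rw [hNl]; exact exp_le_exp.2 (by linarith only [e5, J1, tt1, tt2, tt3])))
  have b2 : 2 * ⌈2 * l⌉₊ ≤ y := by
    clear * - l e6 y t J e2 e5 J1 tt1 tt2 tt3 y5
    have := Nat.ceil_lt_add_one (show 0 ≤ 2 * l by positivity)
    exact_mod_cast (show 2 * (⌈2 * l⌉₊ : ℝ) ≤ y by linarith only [e2, e5, J1, tt1, tt2, tt3, y5, this])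
  have b3 : log R * VP (P0 y) ≤ 4 * Gp (P2 y R W) R :=
    log_le_Gp (by omega) hyR hW1 (hWN.trans b0) (b1.trans b0) b2
  have b4 : 1 ≤ Gp (P2 y R W) R := one_le_Gp (by omega)
  have b5 : 0 < VP (P0 y) := VP_pos fun p => P0_prime
  rw [value hyR hn hRn (dvd_mul_right _ _), sq, mul_inv_cancel_right₀ (by linarith only [b4]),
    ← div_eq_mul_inv, div_le_div_iff₀ (by positivity) (by clear * - N y hN b5; positivity)]
  have b6 : l ≤ 16 * J * log R := by
    rw [div_div, div_le_iff₀ (by positivity)] at r3; linarith only [r3]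
  push_cast
  calc _ ≤ 16 * J * log R * (3 * N * VP (P0 y)) := by clear * - N y l J R b6 hN b5 W; gcongr
    _ = 48 * J * N * (log R * VP (P0 y)) := by ring
    _ ≤ 48 * J * N * (4 * Gp (P2 y R W) R) := by gcongr
    _ = _ := by ring

end

end Pool.Agent.Work.MP_89ab3c_nt
end

section
section
/-!
# The abstract transference step with its explicit density
-/

set_option autoImplicit false

namespace Pool.Agent.Work.MP_89ab3c_nt

open Finset Matrix

noncomputable section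

theorem trans_wide (s K0 r : ℕ) (hs : 1 ≤ s) (hK0 : 1 ≤ K0) (hJ : 4 * K0 * s + 2 ≤ 2 ^ r) {C α c : ℝ}
    (hC : 1 ≤ C) (hα : 0 < α) (hc : 0 < c) : ∃ θ : ℝ, 0 < θ ∧
      ∀ (M q : ℕ) [NeZero q] (T Ω : Finset ℕ) (π : ℕ → ℝ) (ν : ℕ → ZMod q → ℝ)
        (G : ZMod q → ZMod q → ℝ) (Λ : ℝ) (φ : ℕ → ZMod q → Prop) [∀ z, DecidablePred (φ z)],
        q = 2 * M → 2 ≤ M → T ⊆ Icc 1 M → T.Nonempty → Rst s M C T →
        Sat M ((α / 8) ^ 2 / (4 * (24 / α) ^ 2)) c T →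
        Maj ZMod.val q (2 ^ r) s θ Λ Ω π ν G → 0 ≤ Λ → Λ ≤ θ * T.card →
        M * (Λ / T.card) ^ K0 ≤ θ → (∀ z x, φ z x → M / 2 ≤ x.val ∧ x.val < M) →
        α * M ≤ ∑ z ∈ Ω, π z * ∑ x with φ z x, ν z x →
        ∃ z x y, φ z x ∧ φ z y ∧ ∃ t ∈ T, y.val = x.val + t := by
  set τ₀ : ℝ := ((α / 8) ^ 2 * c / (4 * (24 / α))) ^ 2 ^ r with hτ₀
  have hτ₀0 : 0 < τ₀ := by positivity
  set τ₁ : ℝ := τ₀ * α / (4 * (24 / α)) with hτ₁
  have hτ₁0 : 0 < τ₁ := by positivity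
  set C1 : ℝ := 2 * (s + 1) * C with hC1
  have hC10 : 0 < C1 := by positivity
  obtain ⟨ρ, hρ, hB⟩ := exists_bohr s C1 (√(τ₁ / (2 * C1))) (by positivity)
  set A : ℝ := 2 ^ 2 ^ r * (2 * (s + 1) * C) * (1 + ((2 ^ r : ℕ) : ℝ) ^ 2 *
    (2 ^ 2 ^ r * (2 * (s + 2) * C)) + (2 + (2 ^ r : ℕ)) ^ 2 ^ r * (4 * K0))
      + (2 + (2 ^ r : ℕ)) ^ 2 ^ r * (4 * 2 ^ K0) with hA
  have hA0 : 0 < A := by positivity
  refine ⟨min (1 / 2) (min (ρ / 27) (τ₁ / (2 * A))), by positivity, ?_⟩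
  intro M q _ T Ω π ν G Λ φ _ hq hM hT hne hR hS h hΛ hΛ1 hΛ2 hφ hmass
  set θ := min (1 / 2) (min (ρ / 27) (τ₁ / (2 * A))) with hθ
  have hθ0 : 0 < θ := by positivity
  have t1 : θ ≤ 1 / 2 := min_le_left _ _
  have t2 : θ ≤ ρ / 27 := (min_le_right _ _).trans (min_le_left _ _)
  have t3 : θ ≤ τ₁ / (2 * A) := (min_le_right _ _).trans (min_le_right _ _)
  have hM0 : (0 : ℝ) < M := by exact_mod_cast (show 0 < M by omega)
  have hks : s ≤ K0 * s := Nat.le_mul_of_pos_left _ hK0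
  have hr : 1 ≤ r := by
    rcases r with _ | r
    · simp at hJ
    · omega
  by_contra hcon
  push Not at hcon
  obtain ⟨B, hB1, hB2, hB3⟩ := hB q (mu T) (M / 2) (by omega) (by omega) (mu_nonneg T) (sum_mu hne)
    (mu_neg T) (mu_pow_le hq hs (by linarith only [hC, hθ0, t1]) hT hne hR)
  have hB4 : ρ * M / 3 ≤ B.card := by
    have : (M : ℝ) ≤ 3 * (M / 2 : ℕ) := by exact_mod_cast (show M ≤ 3 * (M / 2) by omega)
    linarith only [hB2, hρ, this, mul_nonneg_of_nonpos_of_nonpos (le_of_lt (Mathlib.Tactic.Linarith.sub_neg_of_lt hρ)) (Mathlib.Tactic.Linarith.sub_nonpos_of_le this)]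
  have hB5 : (0 : ℝ) < B.card := lt_of_lt_of_le (by positivity) hB4
  have hBne : B.Nonempty := card_pos.1 (by exact_mod_cast hB5)
  have m0 : ∑ z ∈ Ω, π z ≤ 2 := by
    have := (abs_le.1 (h.nodup [] (by simp) List.nodup_nil)).2
    simp only [List.map_nil, List.prod_nil, mul_one, List.toFinset_nil, offDiag_empty,
      sum_empty] at this
    linarith only [hθ0, t1, this]
  have m1 : ∑ z ∈ Ω, π z * ∑ x, (avg B *ᵥ ν z) x ^ 2 ≤ 6 * M := by
    clear * - Ω π q B ν θ Λ M r s G h K0 hJ hs hθ0 hΛ hq T hT hΛ1 ρ τ₁ A hρ τ₀ α c hα hc C hC hK0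
      hB5 hM t2 hB4 hM0 t1
    refine (second_moment h (by omega) hs hθ0.le hΛ B).trans ?_
    have e : (q : ℝ) = 2 * M := by exact_mod_cast hq
    have hd : (T.card : ℝ) ≤ M := by
      exact_mod_cast (card_le_card hT).trans_eq (by simp)
    have hΛ3 : Λ ≤ θ * M := hΛ1.trans (by gcongr)
    have : (B.card : ℝ)⁻¹ * (q * Λ + 4 * q ^ 2 * θ) ≤ 2 * M := by
      clear * - q B Λ θ M hB5 e ρ hΛ3 hM t2 hB4
      rw [inv_mul_le_iff₀ hB5, e]
      calc _ ≤ 2 * M * (θ * M) + 4 * (2 * M) ^ 2 * θ := by gcongr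
        _ = 18 * M ^ 2 * θ := by ring
        _ ≤ 18 * M ^ 2 * (ρ / 27) := by gcongr
        _ = ρ * M / 3 * (2 * M) := by ring
        _ ≤ _ := by gcongr
    rw [e] at this ⊢
    linarith only [hM0, this, t1, mul_nonneg_of_nonpos_of_nonpos (Mathlib.Tactic.Linarith.sub_nonpos_of_le (Mathlib.Tactic.Linarith.natCast_nonneg ℝ M)) (Mathlib.Tactic.Linarith.sub_nonpos_of_le t1)]
  have m2 : ∑ z ∈ Ω, π z * ((Kp T B * diagonal (ν z)) ^ 2 ^ r).trace ≤ τ₁ := by
    clear * - Ω π q T B ν r θ s C K0 τ₁ Λ G h M hq hs hK0 hJ hC hT hne hR hθ0 t1 hΛ hΛ1 hΛ2 C1 hB3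
      hks hC10 hτ₁0 A α c τ₀ t3 hα hc
    refine (mean_trace h hq hs hK0 (by linarith only [hJ]) hC hT hne hR hθ0.le t1 hΛ hΛ1 hΛ2 B).trans ?_
    have h1 := hB3 (2 ^ r) (by linarith only [hs, hJ, hks])
    rw [Real.sq_sqrt (by positivity)] at h1
    have h2 : τ₁ / (2 * C1) * C1 = τ₁ / 2 := by field_simp
    have h3 : θ * A ≤ τ₁ / 2 := by
      rw [le_div_iff₀ (by positivity)] at t3; linarith only [t3]
    rw [h2] at h1
    exact (add_le_add h1 h3).trans_eq (by ring)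
  have m3 := sum_le_sum fun z (_ : z ∈ Ω) => mul_le_mul_of_nonneg_left
    (point hq hr hT hne (a := α / 8) (k := 24 / α) (by positivity) (by positivity) hc hS hBne hB1
      (ν z) (h.ν0 z) (φ z) (hφ z) (hcon z)) (h.π0 z)
  have m4 : ∑ z ∈ Ω, π z * (α / 8 * M + (∑ x, (avg B *ᵥ ν z) x ^ 2) / (24 / α)
      + 24 / α * M * ((Kp T B * diagonal (ν z)) ^ 2 ^ r).trace / τ₀)
      = α / 8 * M * ∑ z ∈ Ω, π z + α / 24 * ∑ z ∈ Ω, π z * ∑ x, (avg B *ᵥ ν z) x ^ 2
        + 24 / α * M / τ₀ * ∑ z ∈ Ω, π z * ((Kp T B * diagonal (ν z)) ^ 2 ^ r).trace := by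
    clear * - Ω π α M q B ν T r τ₀ hτ₀0 hα
    rw [mul_sum, mul_sum, mul_sum, ← sum_add_distrib, ← sum_add_distrib]
    exact sum_congr rfl fun z _ => by field_simp
  have m5 : 24 / α * M / τ₀ * τ₁ = α / 4 * M := by rw [hτ₁]; field_simp
  have m6 := mul_le_mul_of_nonneg_left m0 (show 0 ≤ α / 8 * M by positivity)
  have m7 := mul_le_mul_of_nonneg_left m1 (show 0 ≤ α / 24 by positivity)
  have m8 := mul_le_mul_of_nonneg_left m2 (show 0 ≤ 24 / α * M / τ₀ by positivity)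
  have m9 : 0 < α * M := by positivity
  rw [m4] at m3
  clear * - α M Ω π q φ ν B τ₀ T r τ₁ c hmass m3 m5 m6 m7 m8 m9; linarith

end

end Pool.Agent.Work.MP_89ab3c_nt
end
end

section
/-!
# Transference for the primes at the logarithmic threshold, windows of any width
-/

set_option autoImplicit false

namespace Pool.Agent.Work.MP_89ab3c_nt

open Finset Filter Real

theorem narrow_wide (s : ℕ) (hs : 1 ≤ s) (C : ℝ) {ε α c : ℝ} (hε : 0 < ε) (hα : 0 < α)
    (hc : 0 < c) : ∃ w : ℕ, ∀ᶠ N : ℕ in atTop, ∀ (X₀ M W : ℕ) (T A : Finset ℕ),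
      1 ≤ W → (∀ p : ℕ, p.Prime → p ≤ w → p ∣ W) → W * M ≤ N →
      T ⊆ Icc 1 M → log N ^ (1 + ε) ≤ T.card → Rst s M C T →
      Sat M ((α / (s ^ 2 * (1 + ε⁻¹))) ^ 4 / 10 ^ 25) c T →
      (∀ p ∈ A, p.Prime ∧ X₀ < p ∧ p ≤ X₀ + N) → α * N / log N ≤ A.card →
      ∃ a ∈ A, ∃ a' ∈ A, ∃ t ∈ T, a = a' + W * t := by
  classical
  set κ := ε / (2 * (1 + ε)) with hκ
  have κ0 : 0 < κ := by positivity
  have κ1 : (1 + ε) * (1 - κ) = 1 + ε / 2 := by rw [hκ]; field_simp; ring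
  have κ2 : 0 ≤ 1 - κ := by nlinarith only [κ1, hε]
  obtain ⟨K0, hK0⟩ : ∃ K0, K0 = ⌈2 * ((s : ℝ) + 2) / κ⌉₊ + 1 := ⟨_, rfl⟩
  obtain ⟨r, hr, hr'⟩ : ∃ r, 4 * K0 * s + 2 ≤ 2 ^ r ∧ 2 ^ r ≤ 2 * (4 * K0 * s + 2) :=
    ⟨Nat.log 2 (4 * K0 * s + 2) + 1, (Nat.lt_pow_succ_log_self one_lt_two _).le, by
      rw [pow_succ']
      exact Nat.mul_le_mul_left 2 (Nat.pow_log_le_self 2 (by omega))⟩
  have J0 : (0 : ℝ) < (2 ^ r : ℕ) := by positivity
  have hδ : (α / (s ^ 2 * (1 + ε⁻¹))) ^ 4 / 10 ^ 25 ≤ (α / (768 * (2 ^ r : ℕ)) / 8) ^ 2 /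
      (4 * (24 / (α / (768 * (2 ^ r : ℕ)))) ^ 2) := by
    have s1 : (1 : ℝ) ≤ s := by exact_mod_cast hs
    have u1 : 1 ≤ 1 + ε⁻¹ := le_add_of_nonneg_right (by positivity)
    have a1 : (K0 : ℝ) ≤ 14 * s * (1 + ε⁻¹) := by
      have a2 := Nat.ceil_lt_add_one (show 0 ≤ 2 * ((s : ℝ) + 2) / κ by positivity)
      have a3 : 2 * ((s : ℝ) + 2) / κ = 4 * (s + 2) * (1 + ε⁻¹) := by rw [hκ]; field_simp; ring
      rw [hK0]; push_cast
      nlinarith only [a2, a3, s1, u1, mul_nonneg (sub_nonneg.2 s1) (sub_nonneg.2 u1)]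
    have a4 : ((2 ^ r : ℕ) : ℝ) ≤ 2 * (4 * K0 * s + 2) := by exact_mod_cast hr'
    have a5 : 1 ≤ (s : ℝ) ^ 2 * (1 + ε⁻¹) := one_le_mul_of_one_le_of_one_le (one_le_pow₀ s1) u1
    have a6 : ((2 ^ r : ℕ) : ℝ) ≤ 116 * (s ^ 2 * (1 + ε⁻¹)) := by
      nlinarith only [a4, a5, mul_le_mul_of_nonneg_right a1 (zero_le_one.trans s1)]
    have a7 : α / (s ^ 2 * (1 + ε⁻¹)) ≤ 116 * (α / (2 ^ r : ℕ)) := by
      rw [← mul_div_assoc, div_le_div_iff₀ (by positivity) J0]
      nlinarith only [mul_le_mul_of_nonneg_left a6 hα.le]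
    calc _ ≤ (116 * (α / (2 ^ r : ℕ))) ^ 4 / 10 ^ 25 := by gcongr
      _ = (α / (2 ^ r : ℕ)) ^ 4 * (116 ^ 4 / 10 ^ 25) := by ring
      _ ≤ (α / (2 ^ r : ℕ)) ^ 4 * (1 / (768 ^ 4 * 147456)) :=
          mul_le_mul_of_nonneg_left (by norm_num) (by positivity)
      _ = _ := by field_simp; norm_num
  obtain ⟨θ, hθ, H⟩ := trans_wide s K0 r hs (by omega) hr (le_max_right C 1)
    (α := α / (768 * (2 ^ r : ℕ))) (by positivity) hc
  obtain ⟨w, hw⟩ := majorant_wide (2 ^ r) s Nat.one_le_two_pow hs (half_pos hε) hθ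
  refine ⟨w, ?_⟩
  have hlog : Tendsto (fun N : ℕ => log N) atTop atTop :=
    tendsto_log_atTop.comp tendsto_natCast_atTop_atTop
  obtain ⟨D0, hD0⟩ := eventually_atTop.1 ((ev_log_pow (((s : ℝ) + 1) ^ (2 * (2 ^ r) ^ 3))
    (2 * (2 ^ r) ^ 3) (half_pos κ0)).and
      (((tendsto_rpow_atTop (half_pos κ0)).eventually_ge_atTop θ⁻¹).and
        (eventually_ge_atTop (2 * max C 1))))
  filter_upwards [hw, hlog.eventually (ev_poly_exp (2 / α) 1 one_pos),
    hlog.eventually (eventually_ge_atTop D0),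
    hlog.eventually (eventually_ge_atTop (max 2 θ⁻¹)), eventually_gt_atTop 0]
    with N e1 e2 e3 e4 hN X₀ M W T A hW1 hW hWM hT hTc hR hS hA hAc
  have hN0 : (0 : ℝ) < N := by exact_mod_cast hN
  have hNl : exp (log N) = N := exp_log hN0
  set l := log N with hl
  have l2 : 2 ≤ l := (le_max_left _ _).trans e4
  have l0 : 0 < l := by linarith only [l2]
  have d1 : l ≤ T.card := le_trans (by
    conv_lhs => rw [← rpow_one l]
    exact rpow_le_rpow_of_exponent_le (by linarith only [l2]) (by linarith only [hε])) hTc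
  have d0 : (0 : ℝ) < T.card := by linarith only [l2, d1]
  have hM : 2 ≤ M := by
    have : T.card ≤ M := (card_le_card hT).trans_eq (by simp)
    have : 2 ≤ T.card := by exact_mod_cast l2.trans d1
    omega
  have hM0 : (0 : ℝ) < M := by positivity
  have : NeZero (2 * M) := ⟨by omega⟩
  obtain ⟨f1, f2, f3⟩ := hD0 _ (e3.trans d1)
  have d2 : (1 : ℝ) ≤ T.card := by linarith only [l2, d1]
  have hMB : 2 * (M : ℝ) ≤ (T.card : ℝ) ^ (s + 1) := by
    obtain ⟨t, ht⟩ := card_pos.1 (show 0 < T.card by exact_mod_cast d0)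
    have a1 := hR (∑ _i : Fin s, t)
    have a2 : (1 : ℝ) ≤ (((Fintype.piFinset fun _ : Fin s => T).filter
        fun x => ∑ i, x i = ∑ _i : Fin s, t).card : ℝ) := by
      rw [Nat.one_le_cast]
      exact card_pos.2 ⟨fun _ => t, mem_filter.2 ⟨Fintype.mem_piFinset.2 fun _ => ht, rfl⟩⟩
    have a3 : 0 ≤ (T.card : ℝ) ^ s := by positivity
    have a4 := mul_le_mul_of_nonneg_right a2 hM0.le
    have a5 := mul_le_mul_of_nonneg_right (le_max_left C 1) a3
    have a6 := mul_le_mul_of_nonneg_right f3 a3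
    rw [pow_succ']
    linarith only [a1, a4, a5, a6]
  obtain ⟨pp, ν, G, R, hMaj, hRl, hval⟩ := e1 X₀ W (2 * M) hW1
    ((Nat.le_mul_of_pos_right W (by omega)).trans hWM) hW (by omega)
    (Nat.mul_le_mul_left 2 ((Nat.le_mul_of_pos_left M hW1).trans hWM))
    (ZMod (2 * M)) ZMod.val (ZMod.val_injective _) ZMod.val_lt
  have q0 : 0 ≤ log ((2 * M : ℕ) : ℝ) := log_natCast_nonneg _
  have q1 : l ^ (1 + ε / 2) * log ((2 * M : ℕ) : ℝ) ^ (2 * (2 ^ r) ^ 3) / T.card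
      ≤ ((T.card : ℝ) ^ (κ / 2))⁻¹ := by
    have a1 : l ^ (1 + ε / 2) ≤ (T.card : ℝ) ^ (1 - κ) := by
      rw [← κ1, rpow_mul l0.le]
      exact rpow_le_rpow (by positivity) hTc κ2
    have a2 : log ((2 * M : ℕ) : ℝ) ≤ (s + 1) * log T.card := by
      have := log_le_log (by positivity) hMB
      rw [log_pow] at this
      push_cast at this ⊢
      exact this
    have a3 : log ((2 * M : ℕ) : ℝ) ^ (2 * (2 ^ r) ^ 3) ≤ (T.card : ℝ) ^ (κ / 2) :=
      (pow_le_pow_left₀ q0 a2 _).trans (by rw [mul_pow]; exact f1)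
    rw [div_le_iff₀ d0, le_inv_mul_iff₀ (by positivity)]
    calc _ ≤ (T.card : ℝ) ^ (κ / 2) * ((T.card : ℝ) ^ (1 - κ) * (T.card : ℝ) ^ (κ / 2)) :=
          mul_le_mul_of_nonneg_left (mul_le_mul a1 a3 (by positivity) (by positivity))
            (by positivity)
      _ = _ := by
          rw [← rpow_add d0, ← rpow_add d0, show κ / 2 + (1 - κ + κ / 2) = 1 by ring, rpow_one]
  obtain ⟨z, x, y, ⟨-, n, hn, -, e5⟩, ⟨-, n', hn', -, e6⟩, t, ht, e7⟩ := H M (2 * M) T _ pp ν G _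
    (fun z x => (M / 2 ≤ x.val ∧ x.val < M) ∧ ∃ n ∈ A, R < n ∧ z = n + W * x.val) rfl hM hT
    (card_pos.1 (by exact_mod_cast d0))
    (fun n => (hR n).trans (mul_le_mul_of_nonneg_right (le_max_left _ _) (by clear * - T s d0 hMaj hS; positivity)))
    (fun E hE hE' => hS E hE ((mul_le_mul_of_nonneg_right hδ hM0.le).trans hE')) hMaj
    (by positivity)
    (by rw [← div_le_iff₀ d0]; exact q1.trans (inv_le_of_inv_le₀ hθ f2))
    (by
      have a1 : (s : ℝ) + 2 ≤ κ / 2 * K0 := by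
        have := Nat.le_ceil (2 * ((s : ℝ) + 2) / κ)
        rw [div_le_iff₀ κ0] at this
        rw [hK0]; push_cast; linarith only [κ0, this]
      have a2 : (M : ℝ) ≤ (T.card : ℝ) ^ ((s : ℝ) + 1) := by
        rw [show (s : ℝ) + 1 = (s + 1 : ℕ) by push_cast; rfl, rpow_natCast]
        linarith only [hMB, hM0]
      calc _ ≤ (T.card : ℝ) ^ ((s : ℝ) + 1) * ((T.card : ℝ) ^ (κ / 2))⁻¹ ^ K0 :=
            mul_le_mul a2 (pow_le_pow_left₀ (by positivity) q1 _) (by positivity) (by positivity)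
        _ = (T.card : ℝ) ^ ((s : ℝ) + 1 - κ / 2 * K0) := by
          rw [inv_pow, ← rpow_mul_natCast d0.le, rpow_sub d0, div_eq_mul_inv (_ ^ ((s : ℝ) + 1))]
        _ ≤ (T.card : ℝ) ^ (-1 : ℝ) := rpow_le_rpow_of_exponent_le d2 (by linarith only [a1])
        _ ≤ _ := by
          rw [rpow_neg_one]
          exact inv_le_of_inv_le₀ hθ (((le_max_right _ _).trans e4).trans d1))
    (fun z x h => h.1)
    (by
      clear * - α N l R A hA l2 hNl hRl hα e2 hN hAc M this s ε K0 r W hM pp ν hval hWM θ G hMaj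
      have a1 : α * N / (2 * l) ≤ (A.filter (R < ·)).card := by
        clear * - A R N hA α l l2 hNl hRl hα e2 hN hAc s
        have b1 : A.card ≤ (A.filter (R < ·)).card + R := by
          rw [← card_filter_add_card_filter_not (s := A) (R < ·)]
          refine Nat.add_le_add_left ((card_le_card fun p hp => ?_).trans_eq (by simp :
            (Icc 1 R).card = R)) _
          rw [mem_filter] at hp
          exact mem_Icc.2 ⟨(hA p hp.1).1.pos, not_lt.1 hp.2⟩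
        have b2 : (A.card : ℝ) ≤ (A.filter (R < ·)).card + R := by exact_mod_cast b1
        have b3 : (R : ℝ) ≤ α * N / (2 * l) := by
          rw [rpow_one, div_mul_eq_mul_div, div_le_iff₀ hα] at e2
          rw [le_div_iff₀ (by positivity), ← hNl]
          calc _ ≤ exp (l / 4) * (exp (l / 4) * α) := by gcongr
            _ = α * exp (l / 4 + l / 4) := by rw [exp_add]; ring
            _ ≤ _ := by gcongr; linarith only [l2]
        have b4 : α * N / l = 2 * (α * N / (2 * l)) := by field_simp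
        linarith only [hAc, b2, b3, b4]
      set Win := univ.filter fun x : ZMod (2 * M) => M / 2 ≤ x.val ∧ x.val < M with hWin
      have a2 : (M : ℝ) / 2 ≤ Win.card := by
        clear * - M Win this hWin s ε K0 r N W hM
        have b1 : (Ico (M / 2) M).card ≤ Win.card := by
          refine card_le_card_of_injOn (fun e => (e : ZMod (2 * M))) (fun e he => ?_)
            fun e he e' he' h => ?_
          · rw [mem_coe, mem_Ico] at he
            simp only [hWin, coe_filter, mem_univ, true_and, Set.mem_ofPred_eq]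
            rwa [ZMod.val_cast_of_lt (by omega)]
          · rw [mem_coe, mem_Ico] at he he'
            have := congrArg ZMod.val h
            rwa [ZMod.val_cast_of_lt (by omega), ZMod.val_cast_of_lt (by omega)] at this
        rw [Nat.card_Ico] at b1
        rw [div_le_iff₀ two_pos]
        exact_mod_cast (show M ≤ Win.card * 2 by omega)
      simp only [mul_sum, sum_filter]
      rw [sum_comm]
      calc _ = (M : ℝ) / 2 * (α * N / (2 * l) * (l / (192 * (2 ^ r : ℕ) * N))) := by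
            field_simp; norm_num
        _ ≤ ∑ x ∈ Win, ∑ n ∈ A.filter (R < ·), l / (192 * (2 ^ r : ℕ) * N) := by
            clear * - M α N l r Win R A a2 a1 l2 hN hα
            simp only [sum_const, nsmul_eq_mul]; gcongr
        _ ≤ ∑ x ∈ Win, ∑ z ∈ Ioc X₀ (X₀ + 3 * N), pp z * if (M / 2 ≤ x.val ∧ x.val < M) ∧
              ∃ n ∈ A, R < n ∧ z = n + W * x.val then ν z x else 0 := by
            refine sum_le_sum fun x hx => ?_
            have hx' := (mem_filter.1 hx).2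
            refine le_trans (le_trans (sum_le_sum fun n hn => ?_) (sum_image (g := (· + W * x.val))
              (s := A.filter (R < ·)) fun _ _ _ _ h => Nat.add_right_cancel h).ge)
              (sum_le_sum_of_subset_of_nonneg (fun z hz => ?_) fun z _ _ =>
                mul_nonneg (hMaj.π0 z) ?_)
            · rw [mem_filter] at hn
              rw [if_pos ⟨hx', n, hn.1, hn.2, rfl⟩]
              exact hval n x (hA n hn.1).1 hn.2
            · obtain ⟨n, hn, rfl⟩ := mem_image.1 hz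
              have c1 := hA n (mem_filter.1 hn).1
              have c2 := c1.1.pos
              have c3 : W * x.val ≤ W * M := Nat.mul_le_mul_left W hx'.2.le
              exact mem_Ioc.2 ⟨by omega, by omega⟩
            · split_ifs
              · exact hMaj.ν0 _ _
              · exact le_rfl
        _ ≤ _ := sum_le_sum_of_subset_of_nonneg (subset_univ _) fun x _ _ =>
            sum_nonneg fun z _ => mul_nonneg (hMaj.π0 z) (by
              split_ifs
              · exact hMaj.ν0 _ _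
              · exact le_rfl))
  refine ⟨n, hn, n', hn', t, ht, ?_⟩
  rw [e7, mul_add] at e6
  omega

end Pool.Agent.Work.MP_89ab3c_nt
end
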