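import Pool.Agent.Work.MP_89ab3c_nt.Powers
import Pool.Agent.Work.MP_89ab3c_nt.Wide.Main

/-!
# Dilated powers as differences of primes in an arbitrary interval
-/

set_option autoImplicit false

namespace Pool.Agent.Work.MP_89ab3c_nt

open Finset Filter Real

theorem powers_wide (k : ℕ) (hk : 1 ≤ k) {ε α : ℝ} (hε : 0 < ε) (hα : 0 < α) :
    ∀ᶠ N : ℕ in atTop, ∀ (X₀ W : ℕ) (A : Finset ℕ), 1 ≤ W → W * (log N ^ (1 + ε)) ^ k ≤ N →
      (∀ p ∈ A, p.Prime ∧ X₀ < p ∧ p ≤ X₀ + N) → α * N / log N ≤ A.card →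
      ∃ a ∈ A, ∃ a' ∈ A, ∃ r : ℕ, 1 ≤ r ∧ (r : ℝ) ≤ log N ^ (1 + ε) ∧ a = a' + W * r ^ k := by
  obtain ⟨s, hs, C, -, hC⟩ := rep_pow_le k hk
  obtain ⟨c, hc, y₀, hy₀⟩ := sarkozy_super k hk
    (δ := (α / (s ^ 2 * (1 + (ε / 2)⁻¹))) ^ 4 / 10 ^ 25) (by positivity)
  obtain ⟨w, H⟩ := narrow_wide s hs C (half_pos hε) hα hc
  have hlog : Tendsto (fun N : ℕ => log N) atTop atTop :=
    tendsto_log_atTop.comp tendsto_natCast_atTop_atTop
  filter_upwards [H, hlog.eventually ((tendsto_rpow_atTop (half_pos hε)).eventually_ge_atTop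
    (2 * w.factorial)), hlog.eventually ((tendsto_rpow_atTop
      (show 0 < 1 + ε / 2 by positivity)).eventually_ge_atTop (max y₀ 1)),
    hlog.eventually (eventually_gt_atTop 0)] with N e1 e2 e3 l0 X₀ W A hW hWN hA hAc
  set l := log N with hl
  set y := ⌈l ^ (1 + ε / 2)⌉₊ with hy
  have y1 : l ^ (1 + ε / 2) ≤ y := Nat.le_ceil _
  have y2 : (y : ℝ) ≤ 2 * l ^ (1 + ε / 2) := by
    have := Nat.ceil_lt_add_one (show 0 ≤ l ^ (1 + ε / 2) by positivity)
    linarith only [this, e3, (le_max_right _ _).trans e3]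
  have y3 : y₀ ≤ y := by exact_mod_cast ((le_max_left _ _).trans e3).trans y1
  have y4 : 1 ≤ y := by exact_mod_cast ((le_max_right _ _).trans e3).trans y1
  have y5 : ((w.factorial * y : ℕ) : ℝ) ≤ l ^ (1 + ε) := by
    push_cast
    calc _ ≤ (w.factorial : ℝ) * (2 * l ^ (1 + ε / 2)) := by gcongr
      _ = 2 * w.factorial * l ^ (1 + ε / 2) := by ring
      _ ≤ l ^ (ε / 2) * l ^ (1 + ε / 2) := by gcongr
      _ = _ := by rw [← rpow_add l0]; congr 1; ring
  have f0 := w.factorial_pos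
  have inj : Function.Injective (· ^ k : ℕ → ℕ) := Nat.pow_left_injective (by omega)
  have hc' : ((Icc 1 y).image (· ^ k)).card = y := by
    rw [card_image_of_injective _ inj]; simp
  obtain ⟨a, ha, a', ha', t, ht, e⟩ := e1 X₀ (y ^ k) (W * w.factorial ^ k) ((Icc 1 y).image (· ^ k)) A
    (Nat.mul_pos hW (by positivity))
    (fun p hp hpw => Dvd.dvd.mul_left (dvd_pow (hp.dvd_factorial.2 hpw) (by omega)) _)
    (by
      rw [mul_assoc, ← mul_pow]
      refine Nat.cast_le (α := ℝ) |>.1 (le_trans ?_ hWN)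
      rw [Nat.cast_mul, Nat.cast_pow]
      gcongr)
    (fun t ht => by
      obtain ⟨r, hr, rfl⟩ := mem_image.1 ht
      rw [mem_Icc] at hr ⊢
      exact ⟨Nat.one_le_pow _ _ hr.1, Nat.pow_le_pow_left hr.2 _⟩)
    (by rwa [hc'])
    (fun n => by
      rw [hc', Nat.cast_pow]
      refine le_trans (mul_le_mul_of_nonneg_right (Nat.cast_le.2 ?_) (by positivity)) (hC y y4 n)
      refine card_le_card_of_surjOn (fun x i => x i ^ k) fun x hx => ?_
      simp only [coe_filter, Fintype.mem_piFinset, mem_image, Set.mem_ofPred_eq] at hx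
      choose r hr hr' using hx.1
      refine ⟨r, ?_, funext hr'⟩
      simp only [coe_filter, Fintype.mem_piFinset, Set.mem_ofPred_eq, hr']
      exact ⟨hr, hx.2⟩)
    (fun E hE hE' => by
      rw [hc', Nat.cast_pow] at *
      refine (hy₀ y y3 E hE hE').trans (Nat.cast_le.2 ?_)
      refine card_le_card_of_injOn (fun e => (e.1, e.2 ^ k)) (fun e he => ?_) fun e _ e' _ h => ?_
      · simp only [coe_filter, mem_product, Set.mem_ofPred_eq] at he ⊢
        exact ⟨⟨he.1.1, mem_image_of_mem _ he.1.2⟩, he.2⟩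
      · exact Prod.ext (Prod.mk.inj h).1 (inj (Prod.mk.inj h).2))
    hA hAc
  obtain ⟨r, hr, rfl⟩ := mem_image.1 ht
  rw [mem_Icc] at hr
  exact ⟨a, ha, a', ha', w.factorial * r, Nat.mul_pos f0 hr.1,
    (Nat.cast_le.2 (Nat.mul_le_mul_left _ hr.2)).trans y5, by rw [e, mul_pow, mul_assoc]⟩

end Pool.Agent.Work.MP_89ab3c_nt
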